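import Pool.Agent.KS6_61.TR.Conn

/-! # The expansion of a set of vertices of a cubic graph -/

set_option autoImplicit false
set_option linter.unusedSectionVars false

open Classical Finset
open Pool.Agent.Results.MP_b9ebd9_co.ThreeConnectedCounterexample
  (ThreeConnected IsPostmanTour CPP IsCycleCover coverLength SCC cutWeight IsEulerianWeight
    IsCycleWCover CycleCoverProperty even_cut even_inner)

namespace Pool.Agent.KS6_61.TR

section
variable {V : Type} [Fintype V] {G : SimpleGraph V}

theorem expand_exp (hc : Cubic G) (hV : Nonempty V) (U : Set V) :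
    ∃ port : V → V → ExpVertex G U,
      Exp G (expand G U) (fun x => x.1.1) port ∧
      (∀ v, v ∈ U → ∀ u u', G.Adj v u → G.Adj v u' → port v u = port v u' → u = u') ∧
      (∀ v, v ∉ U → ∀ u u', G.Adj v u → G.Adj v u' → port v u = port v u') := by
  have hne : Nonempty (ExpVertex G U) := by
    obtain ⟨v⟩ := hV
    obtain ⟨u, hu⟩ := nbr_exists hc v
    by_cases h : v ∈ U
    · exact ⟨⟨(v, some u), Or.inr ⟨h, u, rfl, hu⟩⟩⟩
    · exact ⟨⟨(v, none), Or.inl ⟨h, rfl⟩⟩⟩
  have hex : ∀ v u, ∃ x : ExpVertex G U, G.Adj v u →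
      x.1 = (v, if v ∈ U then some u else none) := by
    intro v u
    by_cases huv : G.Adj v u
    · by_cases h : v ∈ U
      · exact ⟨⟨(v, some u), Or.inr ⟨h, u, rfl, huv⟩⟩, fun _ => by simp [h]⟩
      · exact ⟨⟨(v, none), Or.inl ⟨h, rfl⟩⟩, fun _ => by simp [h]⟩
    · exact ⟨Classical.arbitrary _, fun h => absurd h huv⟩
  choose port hport using hex
  have hp1 : ∀ v u, G.Adj v u → (port v u).1.1 = v := fun v u h => by rw [hport v u h]
  have hin : ∀ v, v ∈ U → ∀ u, G.Adj v u → (port v u).1 = (v, some u) := fun v hv u h => by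
    rw [hport v u h, if_pos hv]
  have hout : ∀ v, v ∉ U → ∀ u, G.Adj v u → (port v u).1 = (v, none) := fun v hv u h => by
    rw [hport v u h, if_neg hv]
  have hinj : ∀ v, v ∈ U → ∀ u u', G.Adj v u → G.Adj v u' → port v u = port v u' → u = u' := by
    intro v hv u u' h h' he
    have := congrArg Subtype.val he
    rw [hin v hv u h, hin v hv u' h'] at this
    simpa using this
  have hcol : ∀ v, v ∉ U → ∀ u u', G.Adj v u → G.Adj v u' → port v u = port v u' := by
    intro v hv u u' h h'
    apply Subtype.ext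
    rw [hout v hv u h, hout v hv u' h']
  refine ⟨port, ⟨hp1, ?_, ?_, ?_⟩, hinj, hcol⟩
  · intro x
    rcases x.2 with ⟨h1, h2⟩ | ⟨h1, w, h2, h3⟩
    · obtain ⟨u, hu⟩ := nbr_exists hc x.1.1
      refine ⟨u, hu, Subtype.ext ?_⟩
      rw [hout _ h1 u hu]
      exact Prod.ext rfl h2.symm
    · refine ⟨w, h3, Subtype.ext ?_⟩
      rw [hin _ h1 w h3]
      exact Prod.ext rfl h2.symm
  · intro x y
    show (x.1.1 = y.1.1 ∧ x ≠ y) ∨ (G.Adj x.1.1 y.1.1 ∧
      (x.1.2 = none ∨ x.1.2 = some y.1.1) ∧ (y.1.2 = none ∨ y.1.2 = some x.1.1)) ↔ _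
    have key : ∀ x y : ExpVertex G U, G.Adj x.1.1 y.1.1 →
        ((x.1.2 = none ∨ x.1.2 = some y.1.1) ↔ x = port x.1.1 y.1.1) := by
      intro x y hxy
      rcases x.2 with ⟨h1, h2⟩ | ⟨h1, w, h2, h3⟩
      · constructor
        · intro _
          apply Subtype.ext
          rw [hout _ h1 _ hxy]
          exact Prod.ext rfl h2
        · intro _
          exact Or.inl h2
      · constructor
        · rintro (h | h)
          · rw [h2] at h
            cases h
          · apply Subtype.ext
            rw [hin _ h1 _ hxy]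
            exact Prod.ext rfl h
        · intro h
          right
          have h4 := congrArg Subtype.val h
          rw [hin _ h1 _ hxy] at h4
          exact congrArg Prod.snd h4
    constructor
    · rintro (h | ⟨h1, h2, h3⟩)
      · exact Or.inl h
      · exact Or.inr ⟨h1, (key x y h1).1 h2, (key y x h1.symm).1 h3⟩
    · rintro (h | ⟨h1, h2, h3⟩)
      · exact Or.inl h
      · exact Or.inr ⟨h1, (key x y h1).2 h2, (key y x h1.symm).2 h3⟩
  · intro v
    by_cases h : v ∈ U
    · exact Or.inr (hinj v h)
    · exact Or.inl (hcol v h)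

/-- number of vertices of an expansion -/
theorem Exp.card_eq {W : Type} [Fintype W] {H : SimpleGraph W} {π : W → V} {port : V → V → W}
    (E : Exp G H π port) (hc : Cubic G) (U : Set V)
    (h1 : ∀ v, v ∈ U → ∀ u u', G.Adj v u → G.Adj v u' → port v u = port v u' → u = u')
    (h2 : ∀ v, v ∉ U → ∀ u u', G.Adj v u → G.Adj v u' → port v u = port v u') :
    Fintype.card W = Fintype.card V + 2 * U.ncard := by
  have hfib : ∀ v, (univ.filter (fun x => π x = v)).card = 1 + 2 * (if v ∈ U then 1 else 0) := by
    intro v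
    obtain ⟨a, b, c, n1, n2, n3, hN⟩ := nbr3 hc v
    have ha : G.Adj v a := (hN a).2 (Or.inl rfl)
    have hb : G.Adj v b := (hN b).2 (Or.inr (Or.inl rfl))
    have hc' : G.Adj v c := (hN c).2 (Or.inr (Or.inr rfl))
    by_cases hv : v ∈ U
    · rw [if_pos hv]
      refine Finset.card_eq_three.2 ⟨port v a, port v b, port v c,
        fun h => n1 (h1 v hv _ _ ha hb h), fun h => n2 (h1 v hv _ _ ha hc' h),
        fun h => n3 (h1 v hv _ _ hb hc' h), ?_⟩
      ext x
      simp only [Finset.mem_filter, Finset.mem_univ, true_and, Finset.mem_insert,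
        Finset.mem_singleton]
      constructor
      · intro hx
        obtain ⟨u, hu, hxu⟩ := E.surj x
        rw [hx] at hu hxu
        rcases (hN u).1 hu with rfl | rfl | rfl
        · exact Or.inl hxu.symm
        · exact Or.inr (Or.inl hxu.symm)
        · exact Or.inr (Or.inr hxu.symm)
      · rintro (rfl | rfl | rfl)
        · exact E.fib _ _ ha
        · exact E.fib _ _ hb
        · exact E.fib _ _ hc'
    · rw [if_neg hv]
      refine Finset.card_eq_one.2 ⟨port v a, ?_⟩
      ext x
      simp only [Finset.mem_filter, Finset.mem_univ, true_and, Finset.mem_singleton]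
      constructor
      · intro hx
        obtain ⟨u, hu, hxu⟩ := E.surj x
        rw [hx] at hu hxu
        rw [← hxu]
        exact h2 v hv _ _ hu ha
      · rintro rfl
        exact E.fib _ _ ha
  have := Finset.card_eq_sum_card_fiberwise (f := π) (s := (univ : Finset W))
    (t := (univ : Finset V)) (by intro x _; simp)
  rw [Finset.card_univ] at this
  rw [this, Finset.sum_congr rfl (fun v _ => hfib v), Finset.sum_add_distrib, ← Finset.mul_sum,
    Finset.sum_const, Finset.card_univ, smul_eq_mul, mul_one, ← Finset.card_filter]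
  congr 2
  rw [← Set.ncard_coe_finset]
  congr 1
  ext v
  simp

end

end Pool.Agent.KS6_61.TR
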