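import Pool.Agent.KS6_61.TR.Thm

/-! # Expansions of 3-connected cubic graphs are 3-connected and cubic -/

set_option autoImplicit false
set_option linter.unusedSectionVars false

open Classical Finset
open Pool.Agent.Results.MP_b9ebd9_co.ThreeConnectedCounterexample
  (ThreeConnected IsPostmanTour CPP IsCycleCover coverLength SCC cutWeight IsEulerianWeight
    IsCycleWCover CycleCoverProperty even_cut even_inner)

namespace Pool.Agent.KS6_61.TR

section
variable {V W : Type} [Fintype V] [Fintype W] {G : SimpleGraph V} {H : SimpleGraph W}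
  {π : W → V} {port : V → V → W}

lemma Exp.cubic (E : Exp G H π port) (hc : Cubic G) : Cubic H := by
  intro x
  rw [← dg_eq]
  obtain ⟨u0, hu0, hx0⟩ := E.surj x
  obtain ⟨b, c, h1, h2, h3, hN⟩ := nbr_first hc hu0
  have : dg H x = vs H (fun _ _ => 1) x := rfl
  rw [this]
  rcases E.alt (π x) with hcol | hinj
  · rw [E.vs_coll h1 h2 h3 hN hcol rfl]
  · have := E.vs_inj h1 h2 h3 hN hinj (fun _ _ => 1)
    rw [hx0] at this
    rw [this]

lemma nbr_exists (hc : Cubic G) (v : V) : ∃ u, G.Adj v u := by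
  obtain ⟨a, b, c, _, _, _, hN⟩ := nbr3 hc v
  exact ⟨a, (hN a).2 (Or.inl rfl)⟩

lemma Exp.card_le (E : Exp G H π port) (hc : Cubic G) : Fintype.card V ≤ Fintype.card W := by
  refine Fintype.card_le_of_surjective π (fun v => ?_)
  obtain ⟨u, hu⟩ := nbr_exists hc v
  exact ⟨port v u, E.fib v u hu⟩

/-- elements of the fibre of `v` outside `S` exist for expanded `v` -/
lemma Exp.fib_out (E : Exp G H π port) (hc : Cubic G) {S : Finset W} (hS : S.card < 3) {v : V}
    (hinj : ∀ u u', G.Adj v u → G.Adj v u' → port v u = port v u' → u = u') :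
    ∃ x, x ∉ S ∧ π x = v := by
  obtain ⟨a, b, c, h1, h2, h3, hN⟩ := nbr3 hc v
  have ha : G.Adj v a := (hN a).2 (Or.inl rfl)
  have hb : G.Adj v b := (hN b).2 (Or.inr (Or.inl rfl))
  have hc' : G.Adj v c := (hN c).2 (Or.inr (Or.inr rfl))
  by_contra hn
  push Not at hn
  have k : ∀ u, G.Adj v u → port v u ∈ S := by
    intro u hu
    by_contra h
    exact hn _ h (E.fib v u hu)
  have hsub : ({port v a, port v b, port v c} : Finset W) ⊆ S := by
    intro x hx
    simp only [Finset.mem_insert, Finset.mem_singleton] at hx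
    rcases hx with rfl | rfl | rfl
    · exact k _ ha
    · exact k _ hb
    · exact k _ hc'
  have := Finset.card_le_card hsub
  rw [Finset.card_eq_three.2 ⟨_, _, _, fun h => h1 (hinj _ _ ha hb h),
    fun h => h2 (hinj _ _ ha hc' h), fun h => h3 (hinj _ _ hb hc' h), rfl⟩] at this
  omega

/-- in the fibre of `v` all elements outside `S` have the same value of `P` -/
lemma Exp.same (E : Exp G H π port) {S : Finset W} {P : W → Prop}
    (hP : ∀ x y, H.Adj x y → x ∉ S → y ∉ S → P x → P y) {x y : W} (hx : x ∉ S) (hy : y ∉ S)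
    (hxy : π x = π y) (h : P x) : P y := by
  by_cases hne : x = y
  · rwa [← hne]
  · exact hP x y ((E.adj_iff x y).2 (Or.inl ⟨hxy, hne⟩)) hx hy h

/-- the set of vertices of `G` with a fibre element outside `S` in `P` -/
def side (π : W → V) (S : Finset W) (P : W → Prop) (v : V) : Prop := ∃ x, x ∉ S ∧ π x = v ∧ P x

lemma Exp.kill (E : Exp G H π port) {S : Finset W} {P : W → Prop}
    (hP : ∀ x y, H.Adj x y → x ∉ S → y ∉ S → P x → P y) {u v : V} (huv : G.Adj u v)
    (hu : side π S P u) (hv : side π S (fun x => ¬ P x) v) : port u v ∈ S ∨ port v u ∈ S := by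
  by_contra hn
  push Not at hn
  obtain ⟨x, hx, hxu, hPx⟩ := hu
  obtain ⟨y, hy, hyv, hPy⟩ := hv
  have h1 : P (port u v) := E.same hP hx hn.1 (hxu.trans (E.fib u v huv).symm) hPx
  have h2 : P (port v u) := hP _ _ (E.across huv) hn.1 hn.2 h1
  exact hPy (E.same hP hn.2 hy ((E.fib v u huv.symm).trans hyv.symm) h2)

lemma Exp.two_le (E : Exp G H π port) (hc : Cubic G) {S : Finset W} (hS : S.card < 3)
    {P : W → Prop} (hP : ∀ x y, H.Adj x y → x ∉ S → y ∉ S → P x → P y) {u : V}
    (hu : side π S P u) : ∃ u', u' ≠ u ∧ side π S P u' := by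
  by_contra hn
  push Not at hn
  obtain ⟨a, b, c, h1, h2, h3, hN⟩ := nbr3 hc u
  have ha : G.Adj u a := (hN a).2 (Or.inl rfl)
  have hb : G.Adj u b := (hN b).2 (Or.inr (Or.inl rfl))
  have hc' : G.Adj u c := (hN c).2 (Or.inr (Or.inr rfl))
  have key : ∀ w, G.Adj u w → ∃ s ∈ S, π s = w ∨ s = port u w := by
    intro w hw
    by_cases hout : ∃ x, x ∉ S ∧ π x = w
    · obtain ⟨x, hx, hxw⟩ := hout
      have hPx : ¬ P x := fun h => hn w hw.ne' ⟨x, hx, hxw, h⟩
      rcases E.kill hP hw hu ⟨x, hx, hxw, hPx⟩ with h | h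
      · exact ⟨_, h, Or.inr rfl⟩
      · exact ⟨_, h, Or.inl (E.fib w u hw.symm)⟩
    · push Not at hout
      refine ⟨port w u, ?_, Or.inl (E.fib w u hw.symm)⟩
      by_contra h
      exact hout _ h (E.fib w u hw.symm)
  have dist : ∀ w w', G.Adj u w → G.Adj u w' → w ≠ w' → ∀ s ∈ S, (π s = w ∨ s = port u w) →
      ¬ (π s = w' ∨ s = port u w') := by
    rintro w w' hw hw' hne s hs (k1 | k1) (k2 | k2)
    · exact hne (k1.symm.trans k2)
    · rw [k2, E.fib u w' hw'] at k1
      exact hw.ne k1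
    · rw [k1, E.fib u w hw] at k2
      exact hw'.ne k2
    · rcases E.alt u with hcol | hinj
      · obtain ⟨x, hx, hxu, _⟩ := hu
        obtain ⟨u0, hu0, hx0⟩ := E.surj x
        rw [hxu] at hu0 hx0
        apply hx
        rw [← hx0, hcol u0 w hu0 hw, ← k1]
        exact hs
      · exact hne (hinj _ _ hw hw' (k1.symm.trans k2))
  obtain ⟨sa, sa1, sa2⟩ := key a ha
  obtain ⟨sb, sb1, sb2⟩ := key b hb
  obtain ⟨sc, sc1, sc2⟩ := key c hc'
  have hsub : ({sa, sb, sc} : Finset W) ⊆ S := by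
    intro x hx
    simp only [Finset.mem_insert, Finset.mem_singleton] at hx
    rcases hx with rfl | rfl | rfl <;> assumption
  have := Finset.card_le_card hsub
  rw [Finset.card_eq_three.2 ⟨sa, sb, sc, fun h => dist a b ha hb h1 sa sa1 sa2 (h ▸ sb2),
    fun h => dist a c ha hc' h2 sa sa1 sa2 (h ▸ sc2),
    fun h => dist b c hb hc' h3 sb sb1 sb2 (h ▸ sc2), rfl⟩] at this
  omega

lemma side_disj (E : Exp G H π port) {S : Finset W} {P : W → Prop}
    (hP : ∀ x y, H.Adj x y → x ∉ S → y ∉ S → P x → P y) {v : V}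
    (h1 : side π S P v) (h2 : side π S (fun x => ¬ P x) v) : False := by
  obtain ⟨x, hx, hxu, hPx⟩ := h1
  obtain ⟨y, hy, hyv, hPy⟩ := h2
  exact hPy (E.same hP hx hy (hxu.trans hyv.symm) hPx)

/-- the vertex deleted from `G` on behalf of `s`, on the side of `P` -/
lemma Exp.choose_del (E : Exp G H π port) {S : Finset W} {P : W → Prop}
    (hP : ∀ x y, H.Adj x y → x ∉ S → y ∉ S → P x → P y) (hne : ∃ v, side π S P v) (s : W) :
    ∃ a : V, ¬ side π S (fun x => ¬ P x) a ∧
      (s ∈ S → (∀ x, π x = π s → x ∈ S) → a = π s) ∧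
      (s ∈ S → ∀ u v, side π S P u → side π S (fun x => ¬ P x) v → G.Adj u v →
        (port u v = s ∨ port v u = s) → u = a) := by
  by_cases hsS : s ∈ S
  swap
  · obtain ⟨v0, hv0⟩ := hne
    exact ⟨v0, fun h => side_disj E hP hv0 h, fun h => absurd h hsS, fun h => absurd h hsS⟩
  by_cases h0 : ∀ x, π x = π s → x ∈ S
  · refine ⟨π s, ?_, fun _ _ => rfl, fun _ => ?_⟩
    · rintro ⟨x, hx, hxs, _⟩
      exact hx (h0 x hxs)
    · rintro u v hu hv huv (h | h)
      · rw [← h, E.fib u v huv]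
      · exfalso
        obtain ⟨y, hy, hyv, _⟩ := hv
        apply hy
        apply h0
        rw [hyv, ← h, E.fib v u huv.symm]
  · by_cases h1 : ∃ u v, side π S P u ∧ side π S (fun x => ¬ P x) v ∧ G.Adj u v ∧
        (port u v = s ∨ port v u = s)
    · obtain ⟨u, v, hu, hv, huv, hs⟩ := h1
      refine ⟨u, fun h => side_disj E hP hu h, fun _ h => absurd h h0, fun _ => ?_⟩
      intro u' v' hu' hv' huv' hs'
      rcases hs with hs | hs <;> rcases hs' with hs' | hs'
      · rw [← E.fib u v huv, ← E.fib u' v' huv', hs, hs']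
      · exfalso
        have : u = v' := by rw [← E.fib u v huv, ← E.fib v' u' huv'.symm, hs, hs']
        subst this
        exact side_disj E hP hu hv'
      · exfalso
        have : v = u' := by rw [← E.fib v u huv.symm, ← E.fib u' v' huv', hs, hs']
        subst this
        exact side_disj E hP hu' hv
      · have e : v = v' := by rw [← E.fib v u huv.symm, ← E.fib v' u' huv'.symm, hs, hs']
        subst e
        rcases E.alt v with hcol | hinj
        · -- then the fibre of `v` is `{s}`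
          exfalso
          obtain ⟨y, hy, hyv, _⟩ := hv
          obtain ⟨u0, hu0, hy0⟩ := E.surj y
          rw [hyv] at hu0 hy0
          apply hy
          rw [← hy0, hcol u0 u hu0 huv.symm, hs]
          exact hsS
        · exact (hinj _ _ huv'.symm huv.symm (hs'.trans hs.symm))
    · obtain ⟨v0, hv0⟩ := hne
      refine ⟨v0, fun h => side_disj E hP hv0 h, fun _ h => absurd h h0, fun _ => ?_⟩
      intro u v hu hv huv hs
      exact absurd ⟨u, v, hu, hv, huv, hs⟩ h1

lemma two_of_card {S : Finset W} (hS : S.card < 3) (x : W) : ∃ s1 s2, ∀ s ∈ S, s = s1 ∨ s = s2 := by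
  rcases Finset.eq_empty_or_nonempty S with rfl | ⟨s1, h1⟩
  · exact ⟨x, x, by simp⟩
  · rcases Finset.eq_empty_or_nonempty (S.erase s1) with h | ⟨s2, h2⟩
    · refine ⟨s1, s1, fun s hs => Or.inl ?_⟩
      by_contra hne
      have : s ∈ S.erase s1 := Finset.mem_erase.2 ⟨hne, hs⟩
      rw [h] at this
      simp at this
    · refine ⟨s1, s2, fun s hs => ?_⟩
      by_contra hne
      push Not at hne
      have h3 : s ∈ (S.erase s1).erase s2 :=
        Finset.mem_erase.2 ⟨hne.2, Finset.mem_erase.2 ⟨hne.1, hs⟩⟩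
      have c1 := Finset.card_erase_of_mem h1
      have c2 := Finset.card_erase_of_mem h2
      have c3 := Finset.card_pos.2 ⟨s, h3⟩
      omega

/-- expansions of 3-connected cubic graphs are 3-connected -/
theorem Exp.three (E : Exp G H π port) (hc : Cubic G) (h3 : ThreeConnected G) :
    ThreeConnected H := by
  refine tc_of_closed (lt_of_lt_of_le h3.1 (E.card_le hc)) ?_
  intro S hS P hP x y hx hy hPx
  by_contra hPy
  have hP' : ∀ x y, H.Adj x y → x ∉ S → y ∉ S → ¬ P x → ¬ P y :=
    fun x y h hx hy hn hp => hn (hP y x h.symm hy hx hp)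
  have hA : side π S P (π x) := ⟨x, hx, rfl, hPx⟩
  have hB : side π S (fun x => ¬ P x) (π y) := ⟨y, hy, rfl, hPy⟩
  obtain ⟨s1, s2, hs⟩ := two_of_card hS x
  obtain ⟨a1, a11, a12, a13⟩ := E.choose_del hP ⟨_, hA⟩ s1
  obtain ⟨b2, b21, b22, b23⟩ := E.choose_del hP' ⟨_, hB⟩ s2
  simp only [not_not] at b21 b23
  obtain ⟨u', hu', hu'A⟩ := E.two_le hc hS hP hA
  obtain ⟨v', hv', hv'B⟩ := E.two_le hc hS hP' hB
  obtain ⟨a0, ha0, ha0'⟩ : ∃ a0, side π S P a0 ∧ a0 ≠ a1 := by
    by_cases h : u' = a1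
    · exact ⟨π x, hA, fun h' => hu' (h.trans h'.symm)⟩
    · exact ⟨u', hu'A, h⟩
  obtain ⟨b0, hb0, hb0'⟩ : ∃ b0, side π S (fun x => ¬ P x) b0 ∧ b0 ≠ b2 := by
    by_cases h : v' = b2
    · exact ⟨π y, hB, fun h' => hv' (h.trans h'.symm)⟩
    · exact ⟨v', hv'B, h⟩
  have hcard : ({a1, b2} : Finset V).card < 3 := lt_of_le_of_lt Finset.card_le_two (by omega)
  have := tc_closed h3 {a1, b2} hcard (fun v => side π S P v) (a := a0) (b := b0) ?_ ?_ ?_ ha0
  · exact side_disj E hP this hb0
  · intro u v huv hu hv hside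
    simp only [Finset.mem_insert, Finset.mem_singleton, not_or] at hu hv
    have hout : ∃ z, z ∉ S ∧ π z = v := by
      by_contra hn
      push Not at hn
      obtain ⟨w, hw⟩ := nbr_exists hc v
      have e1 := E.fib v w hw
      have e2 : port v w ∈ S := by
        by_contra h
        exact hn _ h e1
      have e3 : ∀ z, π z = π (port v w) → z ∈ S := by
        intro z hz
        by_contra h
        exact hn z h (hz.trans e1)
      rcases hs _ e2 with h | h
      · exact hv.1 ((a12 (h ▸ e2) (h ▸ e3)).trans (h ▸ e1)).symm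
      · exact hv.2 ((b22 (h ▸ e2) (h ▸ e3)).trans (h ▸ e1)).symm
    obtain ⟨z, hz, hzv⟩ := hout
    by_contra hns
    have hPz : ¬ P z := fun h => hns ⟨z, hz, hzv, h⟩
    have hvB : side π S (fun x => ¬ P x) v := ⟨z, hz, hzv, hPz⟩
    rcases E.kill hP huv hside hvB with h | h
    · rcases hs _ h with h' | h'
      · exact hu.1 (a13 (h' ▸ h) u v hside hvB huv (Or.inl h'))
      · exact hv.2 (b23 (h' ▸ h) v u hvB hside huv.symm (Or.inr h'))
    · rcases hs _ h with h' | h'
      · exact hu.1 (a13 (h' ▸ h) u v hside hvB huv (Or.inr h'))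
      · exact hv.2 (b23 (h' ▸ h) v u hvB hside huv.symm (Or.inl h'))
  · simp only [Finset.mem_insert, Finset.mem_singleton, not_or]
    exact ⟨ha0', fun h => b21 (h ▸ ha0)⟩
  · simp only [Finset.mem_insert, Finset.mem_singleton, not_or]
    exact ⟨fun h => a11 (h ▸ hb0), hb0'⟩

end

end Pool.Agent.KS6_61.TR
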