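import Pool.Agent.KS6_61.TR.Exp

/-! # Covers of expansions -/

set_option autoImplicit false
set_option linter.unusedSectionVars false

open Classical Finset
open Pool.Agent.Results.MP_b9ebd9_co.ThreeConnectedCounterexample
  (ThreeConnected IsPostmanTour CPP IsCycleCover coverLength SCC cutWeight IsEulerianWeight
    IsCycleWCover CycleCoverProperty even_cut even_inner)

namespace Pool.Agent.KS6_61.TR

section
variable {V W : Type} [Fintype V] [Fintype W] {G : SimpleGraph V} {H : SimpleGraph W}
  {π : W → V} {port : V → V → W}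

lemma nbr_first (hc : Cubic G) {v u0 : V} (hu0 : G.Adj v u0) : ∃ b c, u0 ≠ b ∧ u0 ≠ c ∧ b ≠ c ∧
    ∀ w, G.Adj v w ↔ w = u0 ∨ w = b ∨ w = c := by
  obtain ⟨a, b, c, h1, h2, h3, hN⟩ := nbr3 hc v
  rcases (hN u0).1 hu0 with h | h | h
  · exact ⟨b, c, h ▸ h1, h ▸ h2, h3, fun w => by rw [hN, h]⟩
  · exact ⟨a, c, h ▸ h1.symm, h ▸ h3, h2, fun w => by rw [hN, h]; tauto⟩
  · exact ⟨a, b, h ▸ h2.symm, h ▸ h3.symm, h1, fun w => by rw [hN, h]; tauto⟩

/-- vertex sums of a weight on `H` -/
noncomputable def vs (H : SimpleGraph W) (g : W → W → ℕ) (x : W) : ℕ :=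
  ∑ y, if H.Adj x y then g x y else 0

lemma Exp.vs_coll (E : Exp G H π port) {v a b c : V} (h1 : a ≠ b) (h2 : a ≠ c) (h3 : b ≠ c)
    (hN : ∀ w, G.Adj v w ↔ w = a ∨ w = b ∨ w = c)
    (hcol : ∀ u u', G.Adj v u → G.Adj v u' → port v u = port v u') {x : W} (hx : π x = v)
    (g : W → W → ℕ) : vs H g x = g (port v a) (port a v) + g (port v b) (port b v) +
      g (port v c) (port c v) := by
  have ha : G.Adj v a := (hN a).2 (Or.inl rfl)
  have hb : G.Adj v b := (hN b).2 (Or.inr (Or.inl rfl))
  have hc : G.Adj v c := (hN c).2 (Or.inr (Or.inr rfl))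
  obtain ⟨u0, hu0, hx0⟩ := E.surj x
  rw [hx] at hu0 hx0
  have xa : x = port v a := by rw [← hx0]; exact hcol _ _ hu0 ha
  have xb : x = port v b := by rw [← hx0]; exact hcol _ _ hu0 hb
  have xc : x = port v c := by rw [← hx0]; exact hcol _ _ hu0 hc
  unfold vs
  rw [E.sum_coll h1 h2 h3 hN hcol hx _ (fun y hy => if_neg hy)]
  have ea : H.Adj x (port a v) := by rw [xa]; exact E.across ha
  have eb : H.Adj x (port b v) := by rw [xb]; exact E.across hb
  have ec : H.Adj x (port c v) := by rw [xc]; exact E.across hc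
  rw [if_pos ea, if_pos eb, if_pos ec, ← xa, ← xb, ← xc]

lemma Exp.vs_inj (E : Exp G H π port) {v a b c : V} (h1 : a ≠ b) (h2 : a ≠ c) (h3 : b ≠ c)
    (hN : ∀ w, G.Adj v w ↔ w = a ∨ w = b ∨ w = c)
    (hinj : ∀ u u', G.Adj v u → G.Adj v u' → port v u = port v u' → u = u')
    (g : W → W → ℕ) : vs H g (port v a) = g (port v a) (port a v) + g (port v a) (port v b) +
      g (port v a) (port v c) := by
  have ha : G.Adj v a := (hN a).2 (Or.inl rfl)
  have hb : G.Adj v b := (hN b).2 (Or.inr (Or.inl rfl))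
  have hc : G.Adj v c := (hN c).2 (Or.inr (Or.inr rfl))
  unfold vs
  rw [E.sum_inj h3 hN hinj _ (fun y hy => if_neg hy), if_pos (E.across ha),
    if_pos (E.inside ha hb (fun h => h1 (hinj _ _ ha hb h))),
    if_pos (E.inside ha hc (fun h => h2 (hinj _ _ ha hc h)))]

lemma vs3 {v a b c : V} (h1 : a ≠ b) (h2 : a ≠ c) (h3 : b ≠ c)
    (hN : ∀ w, G.Adj v w ↔ w = a ∨ w = b ∨ w = c) (g : V → V → ℕ) :
    vs G g v = g v a + g v b + g v c := by
  have ha : G.Adj v a := (hN a).2 (Or.inl rfl)
  have hb : G.Adj v b := (hN b).2 (Or.inr (Or.inl rfl))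
  have hc : G.Adj v c := (hN c).2 (Or.inr (Or.inr rfl))
  unfold vs
  rw [sum3 _ h1 h2 h3 (fun w hw => if_neg (fun h => hw ((hN w).1 h))), if_pos ha, if_pos hb,
    if_pos hc]

lemma Exp.par_con (E : Exp G H π port) (hc : Cubic G) (g : W → W → ℕ)
    (hsym : ∀ x y, g x y = g y x) (hg : ∀ x, Even (vs H g x)) (v : V) :
    Even (vs G (fun u v => g (port u v) (port v u)) v) := by
  obtain ⟨a, b, c, h1, h2, h3, hN⟩ := nbr3 hc v
  rw [vs3 h1 h2 h3 hN]
  have ha : G.Adj v a := (hN a).2 (Or.inl rfl)
  rcases E.alt v with hcol | hinj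
  · have := hg (port v a)
    rwa [E.vs_coll h1 h2 h3 hN hcol (E.fib v a ha)] at this
  · have e1 := hg (port v a)
    have e2 := hg (port v b)
    have e3 := hg (port v c)
    rw [E.vs_inj h1 h2 h3 hN hinj] at e1
    rw [E.vs_inj (a := b) (b := a) (c := c) h1.symm h3 h2 (fun w => by rw [hN]; tauto) hinj] at e2
    rw [E.vs_inj (a := c) (b := a) (c := b) h2.symm h3.symm h1 (fun w => by rw [hN]; tauto)
      hinj] at e3
    rw [hsym (port v b) (port v a)] at e2
    rw [hsym (port v c) (port v a), hsym (port v c) (port v b)] at e3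
    rw [Nat.even_iff] at e1 e2 e3 ⊢
    omega

lemma Exp.lift_cover (E : Exp G H π port) (hc : Cubic G) {w' : W → W → ℕ}
    (hsym : ∀ x y, w' x y = w' y x) (h12 : ∀ x y, H.Adj x y → w' x y = 1 ∨ w' x y = 2)
    (hev : ∀ x, Even (vs H w' x))
    (h : EvCover G (fun u v => w' (port u v) (port v u))) : EvCover H w' := by
  obtain ⟨L, l1, l2⟩ := h
  replace l2 : ∀ u v, G.Adj u v → mul L u v = w' (port u v) (port v u) := l2
  have key : ∀ v, ∃ f Q : Bool,
      (∀ u u', G.Adj v u → G.Adj v u' → port v u = port v u' → u = u') →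
      ∀ u u', G.Adj v u → G.Adj v u' → u ≠ u' →
        (if f then mul L v u + mul L v u' - 2 * cnt L v u u' else cnt L v u u') + Q.toNat =
          w' (port v u) (port v u') := by
    intro v
    obtain ⟨a, b, c, h1, h2, h3, hN⟩ := nbr3 hc v
    have ha : G.Adj v a := (hN a).2 (Or.inl rfl)
    have hb : G.Adj v b := (hN b).2 (Or.inr (Or.inl rfl))
    have hc' : G.Adj v c := (hN c).2 (Or.inr (Or.inr rfl))
    by_cases hinj : ∀ u u', G.Adj v u → G.Adj v u' → port v u = port v u' → u = u'
    · have e1 := hev (port v a)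
      have e2 := hev (port v b)
      have e3 := hev (port v c)
      rw [E.vs_inj h1 h2 h3 hN hinj, ← l2 v a ha] at e1
      rw [E.vs_inj (a := b) (b := a) (c := c) h1.symm h3 h2 (fun w => by rw [hN]; tauto) hinj,
        ← l2 v b hb, hsym (port v b) (port v a)] at e2
      rw [E.vs_inj (a := c) (b := a) (c := b) h2.symm h3.symm h1 (fun w => by rw [hN]; tauto)
        hinj, ← l2 v c hc', hsym (port v c) (port v a), hsym (port v c) (port v b)] at e3
      have m1 := mul_cnt l1 h1 h2 h3 hN
      have m2 := mul_cnt l1 (a := b) (b := a) (c := c) h1.symm h3 h2 (fun w => by rw [hN]; tauto)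
      have m3 := mul_cnt l1 (a := c) (b := a) (c := b) h2.symm h3.symm h1
        (fun w => by rw [hN]; tauto)
      rw [cnt_symm L v b a] at m2
      rw [cnt_symm L v c a, cnt_symm L v c b] at m3
      have iab : H.Adj (port v a) (port v b) := E.inside ha hb (fun h => h1 (hinj _ _ ha hb h))
      have iac : H.Adj (port v a) (port v c) := E.inside ha hc' (fun h => h2 (hinj _ _ ha hc' h))
      have ibc : H.Adj (port v b) (port v c) := E.inside hb hc' (fun h => h3 (hinj _ _ hb hc' h))
      have va : mul L v a = 1 ∨ mul L v a = 2 := by rw [l2 v a ha]; exact h12 _ _ (E.across ha)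
      have vb : mul L v b = 1 ∨ mul L v b = 2 := by rw [l2 v b hb]; exact h12 _ _ (E.across hb)
      have vc : mul L v c = 1 ∨ mul L v c = 2 := by rw [l2 v c hc']; exact h12 _ _ (E.across hc')
      obtain ⟨f, Q, q1, q2, q3⟩ := local_choice va vb vc (h12 _ _ iab) (h12 _ _ iac)
        (h12 _ _ ibc) m1 m2 m3 e1 e2 e3
      refine ⟨f, Q, fun _ u u' hu hu' hne => ?_⟩
      rcases (hN u).1 hu with rfl | rfl | rfl <;> rcases (hN u').1 hu' with rfl | rfl | rfl
      · exact absurd rfl hne
      · exact q1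
      · exact q2
      · rw [cnt_symm, add_comm (mul L v _) (mul L v _), hsym]; exact q1
      · exact absurd rfl hne
      · exact q3
      · rw [cnt_symm, add_comm (mul L v _) (mul L v _), hsym]; exact q2
      · rw [cnt_symm, add_comm (mul L v _) (mul L v _), hsym]; exact q3
      · exact absurd rfl hne
    · exact ⟨false, false, fun h => absurd h hinj⟩
  choose f Q hfQ using key
  let Kq : SimpleGraph W :=
    { Adj := fun x y => (π x = π y ∧ x ≠ y) ∧ Q (π x) = true
      symm := ⟨fun x y h => ⟨⟨h.1.1.symm, h.1.2.symm⟩, by rw [← h.1.1]; exact h.2⟩⟩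
      loopless := ⟨fun x h => h.1.2 rfl⟩ }
  have hKq : Kq ≤ H := fun x y h => by
    rw [E.adj_iff]
    exact Or.inl h.1
  have hKe : Ev Kq := by
    intro x
    obtain ⟨u0, hu0, hx0⟩ := E.surj x
    obtain ⟨b, c, h1, h2, h3, hN⟩ := nbr_first hc hu0
    have hb : G.Adj (π x) b := (hN b).2 (Or.inr (Or.inl rfl))
    have hc' : G.Adj (π x) c := (hN c).2 (Or.inr (Or.inr rfl))
    have across0 : ∀ u, G.Adj (π x) u → ∀ y, π y = π x → ind Kq y (port u (π x)) = 0 := by
      intro u hu y hy
      unfold ind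
      rw [if_neg]
      intro h
      have := h.1.1
      rw [E.fib u (π x) hu.symm, hy] at this
      exact hu.ne this
    unfold dg
    rcases E.alt (π x) with hcol | hinj
    · rw [E.sum_coll h1 h2 h3 hN hcol rfl _ (fun y hy => ind_zero hKq hy)]
      rw [across0 _ hu0 x rfl, across0 _ hb x rfl, across0 _ hc' x rfl]
      simp
    · have := E.sum_inj h3 hN hinj (ind Kq (port (π x) u0)) (fun y hy => ind_zero hKq hy)
      rw [hx0] at this
      rw [this, across0 _ hu0 x rfl]
      have inq : ∀ u, G.Adj (π x) u → u0 ≠ u → ind Kq x (port (π x) u) = (Q (π x)).toNat := by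
        intro u hu hne
        unfold ind
        have hne' : x ≠ port (π x) u := fun h => hne (hinj _ _ hu0 hu (hx0.trans h))
        have : Kq.Adj x (port (π x) u) ↔ Q (π x) = true := by
          constructor
          · exact fun h => h.2
          · exact fun h => ⟨⟨(E.fib _ _ hu).symm, hne'⟩, h⟩
        simp only [this]
        cases Q (π x) <;> simp
      rw [inq b hb h1, inq c hc' h2, zero_add]
      exact ⟨_, rfl⟩
  refine ⟨Kq :: L.map (lift G H π port f), ?_, fun x y hxy => ?_⟩
  · intro K' hK'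
    rcases List.mem_cons.1 hK' with rfl | hK'
    · exact ⟨hKq, hKe⟩
    · obtain ⟨K, hK, rfl⟩ := List.mem_map.1 hK'
      exact ⟨fun _ _ h => h.1, E.lift_ev hc f (l1 K hK).1 (l1 K hK).2⟩
  · rw [mul_cons]
    rcases (E.adj_iff x y).1 hxy with ⟨h1, h2⟩ | ⟨h1, h2, h3⟩
    · obtain ⟨u, hu, hx0⟩ := E.surj x
      obtain ⟨u', hu', hy0⟩ := E.surj y
      rw [← h1] at hu' hy0
      set v := π x with hv
      have hinj : ∀ u u', G.Adj v u → G.Adj v u' → port v u = port v u' → u = u' := by
        rcases E.alt v with hcol | hinj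
        · exact absurd ((hx0.symm.trans (hcol _ _ hu hu')).trans hy0) h2
        · exact hinj
      have hne : u ≠ u' := fun h => h2 (by rw [← hx0, ← hy0, h])
      have e1 := hfQ v hinj u u' hu hu' hne
      have e2 := mul_lift_inside E f L hu hu' hne hinj
      have e3 : ind Kq x y = (Q v).toNat := by
        unfold ind
        have : Kq.Adj x y ↔ Q v = true := ⟨fun h => h.2, fun h => ⟨⟨h1, h2⟩, h⟩⟩
        simp only [this]
        cases Q v <;> simp
      rw [hx0, hy0] at e1 e2
      rw [e3, ← e1]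
      have e4 : 2 * cnt L v u u' ≤ mul L v u + mul L v u' := by
        have k1 : cnt L v u u' ≤ mul L v u := by
          obtain ⟨b, c, h1, h2, h3, hN⟩ := nbr_first hc hu
          have := mul_cnt l1 h1 h2 h3 hN
          rcases (hN u').1 hu' with rfl | rfl | rfl
          · exact absurd rfl hne
          · omega
          · omega
        have k2 : cnt L v u u' ≤ mul L v u' := by
          obtain ⟨b, c, h1, h2, h3, hN⟩ := nbr_first hc hu'
          have := mul_cnt l1 h1 h2 h3 hN
          rw [cnt_symm]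
          rcases (hN u).1 hu with rfl | rfl | rfl
          · exact absurd rfl hne
          · omega
          · omega
        omega
      cases hf : f v
      · rw [hf] at e2
        simp only [Bool.false_eq_true, if_false] at e2 ⊢
        rw [e2, add_comm]
      · rw [hf] at e2
        simp only [if_true] at e2 ⊢
        omega
    · have e1 : ind Kq x y = 0 := by
        unfold ind
        rw [if_neg]
        exact fun h => h1.ne h.1.1
      rw [e1, zero_add]
      have e2 := mul_lift_across E f L h1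
      rw [l2 _ _ h1, ← h2, ← h3] at e2
      exact e2

end

end Pool.Agent.KS6_61.TR
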