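import Mathlib
import Pool.Graph.R_seed8.Results.MP_b9ebd9_co.ThreeConnectedCounterexample

/-! # Definitions: expansion of vertices to triangles, cycle double covers

The notions `ThreeConnected`, `CPP`, `SCC`, `CycleCoverProperty`, `IsCycleWCover` of the question
are those of the imported library file (graphs are finite simple graphs; `SCC` and `CPP` are minima;
`ThreeConnected` is vertex 3-connectivity, more than three vertices). -/

set_option autoImplicit false

open Pool.Agent.Results.MP_b9ebd9_co.ThreeConnectedCounterexample (IsCycleWCover)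

namespace Pool.Agent.KS6_61.TR

/-- every vertex has exactly three neighbours -/
def Cubic {V : Type} (G : SimpleGraph V) : Prop := ∀ v, (G.neighborSet v).ncard = 3

/-- The vertices of the expansion `G_U`: `(v, none)` for every `v ∉ U`, and `(v, some w)` for every
`v ∈ U` and every neighbour `w` of `v`. -/
def ExpVertex {V : Type} (G : SimpleGraph V) (U : Set V) : Type :=
  {x : V × Option V // (x.1 ∉ U ∧ x.2 = none) ∨ (x.1 ∈ U ∧ ∃ w, x.2 = some w ∧ G.Adj x.1 w)}

/-- The expansion `G_U`: every vertex `v ∈ U` is replaced by a triangle whose three vertices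
`(v, some w)` take over the three edges `vw` of `G`. So two vertices of `G_U` are adjacent if they
are distinct and lie over the same vertex of `G`, or if they lie over adjacent vertices `v, w` and
each of them is unexpanded or is the one reserved for the edge `vw`. -/
def expand {V : Type} (G : SimpleGraph V) (U : Set V) : SimpleGraph (ExpVertex G U) where
  Adj x y := (x.1.1 = y.1.1 ∧ x ≠ y) ∨ (G.Adj x.1.1 y.1.1 ∧
    (x.1.2 = none ∨ x.1.2 = some y.1.1) ∧ (y.1.2 = none ∨ y.1.2 = some x.1.1))
  symm := ⟨fun _ _ h => h.elim (fun h => Or.inl ⟨h.1.symm, h.2.symm⟩)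
    (fun h => Or.inr ⟨h.1.symm, h.2.2, h.2.1⟩)⟩
  loopless := ⟨fun _ h => h.elim (fun h => h.2 rfl) (fun h => h.1.ne rfl)⟩

open Classical in
noncomputable instance {V : Type} [Fintype V] (G : SimpleGraph V) (U : Set V) :
    Fintype (ExpVertex G U) := Subtype.fintype _

/-- The truncation of `G`: every vertex is replaced by a triangle. -/
abbrev truncation {V : Type} (G : SimpleGraph V) : SimpleGraph (ExpVertex G Set.univ) :=
  expand G Set.univ

/-- `G` has a cycle double cover: a finite family of cycles such that every edge lies in exactly
two of them (counted with multiplicity). -/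
def HasCDC {V : Type} (G : SimpleGraph V) : Prop := ∃ F, IsCycleWCover G (fun _ => 2) F

open Classical in
/-- `G` has a cycle double cover, some pairwise edge-disjoint members `Z` of which together pass
through all vertices in `A`. -/
def HasCDCThrough {V : Type} (G : SimpleGraph V) (A : Set V) : Prop :=
  ∃ Z F : List (Σ u : V, G.Walk u u), IsCycleWCover G (fun _ => 2) (Z ++ F) ∧
    (∀ e ∈ G.edgeSet, Z.countP (fun C => decide (e ∈ C.2.edges)) ≤ 1) ∧
    ∀ v ∈ A, ∃ C ∈ Z, v ∈ C.2.support

end Pool.Agent.KS6_61.TR
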