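import Mathlib
import Pool.Graph.R_pool_sql_team_seeded_f72693b1.W150.OC.Veblen
import Pool.Agent.KS6_61.TR.Defs

/-! # Even subgraphs and families of cycles -/

set_option autoImplicit false
set_option linter.unusedSectionVars false

open Classical Finset
open Pool.Agent.Results.MP_b9ebd9_co.ThreeConnectedCounterexample
  (ThreeConnected IsPostmanTour CPP IsCycleCover coverLength SCC cutWeight IsEulerianWeight
    IsCycleWCover CycleCoverProperty even_cut)

namespace Pool.Agent.KS6_61.TR

section
variable {V : Type} [Fintype V]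

/-- indicator of an edge of `K` -/
noncomputable def ind (K : SimpleGraph V) (u v : V) : ℕ := if K.Adj u v then 1 else 0

lemma ind_le (K : SimpleGraph V) (u v : V) : ind K u v ≤ 1 := by
  unfold ind; split_ifs <;> omega

lemma ind_symm (K : SimpleGraph V) (u v : V) : ind K u v = ind K v u := by
  unfold ind; simp only [SimpleGraph.adj_comm]

/-- the degree -/
noncomputable def dg (K : SimpleGraph V) (v : V) : ℕ := ∑ w, ind K v w

/-- all degrees are even -/
def Ev (K : SimpleGraph V) : Prop := ∀ v, Even (dg K v)

lemma dg_eq (K : SimpleGraph V) (v : V) : dg K v = (K.neighborSet v).ncard := by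
  unfold dg ind
  rw [← Finset.card_filter, ← Set.ncard_coe_finset]
  congr 1
  ext w; simp

/-- multiplicity of an edge in a list of graphs -/
noncomputable def mul (L : List (SimpleGraph V)) (u v : V) : ℕ := (L.map (fun K => ind K u v)).sum

@[simp] lemma mul_nil (u v : V) : mul [] u v = 0 := rfl

@[simp] lemma mul_cons (K : SimpleGraph V) (L : List (SimpleGraph V)) (u v : V) :
    mul (K :: L) u v = ind K u v + mul L u v := by simp [mul]

lemma mul_append (L L' : List (SimpleGraph V)) (u v : V) :
    mul (L ++ L') u v = mul L u v + mul L' u v := by simp [mul]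

lemma mul_symm (L : List (SimpleGraph V)) (u v : V) : mul L u v = mul L v u := by
  unfold mul
  congr 1
  exact List.map_congr_left (fun K _ => ind_symm K u v)

lemma mul_zero_of_le {G : SimpleGraph V} (L : List (SimpleGraph V)) (hL : ∀ K ∈ L, K ≤ G)
    {u v : V} (h : ¬ G.Adj u v) : mul L u v = 0 := by
  induction L with
  | nil => rfl
  | cons K L ih =>
    rw [mul_cons, ih (fun K' h' => hL K' (List.mem_cons_of_mem _ h'))]
    unfold ind
    rw [if_neg (fun h' => h (hL K List.mem_cons_self h'))]

lemma sum_mul_even (L : List (SimpleGraph V)) (hL : ∀ K ∈ L, Ev K) (u : V) :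
    Even (∑ v, mul L u v) := by
  induction L with
  | nil => simp
  | cons K L ih =>
    simp only [mul_cons, Finset.sum_add_distrib]
    exact (hL K List.mem_cons_self u).add (ih (fun K' h' => hL K' (List.mem_cons_of_mem _ h')))

/-- a list of even subgraphs of `G` -/
def EvL (G : SimpleGraph V) (L : List (SimpleGraph V)) : Prop := ∀ K ∈ L, K ≤ G ∧ Ev K

/-- a cover by even subgraphs with prescribed multiplicities -/
def EvCover (G : SimpleGraph V) (w : V → V → ℕ) : Prop :=
  ∃ L : List (SimpleGraph V), EvL G L ∧ ∀ u v, G.Adj u v → mul L u v = w u v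

/-! ### cycles and even subgraphs -/

lemma cyc_ev {G : SimpleGraph V} {u : V} (c : G.Walk u u) (hc : c.IsCycle) :
    c.toSubgraph.spanningCoe ≤ G ∧ Ev c.toSubgraph.spanningCoe ∧
      ∀ a b, c.toSubgraph.spanningCoe.Adj a b ↔ s(a, b) ∈ c.edges := by
  refine ⟨fun a b h => c.toSubgraph.adj_sub h, fun v => ?_, fun a b => ?_⟩
  · rw [dg_eq]
    by_cases h : v ∈ c.support
    · have := hc.ncard_neighborSet_toSubgraph_eq_two h
      have h2 : (c.toSubgraph.spanningCoe.neighborSet v) = c.toSubgraph.neighborSet v := by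
        ext w; simp
      rw [h2, this]
      exact even_two
    · have h2 : (c.toSubgraph.spanningCoe.neighborSet v) = ∅ := by
        ext x
        simp only [SimpleGraph.mem_neighborSet, SimpleGraph.Subgraph.spanningCoe_adj,
          Set.mem_empty_iff_false, iff_false]
        intro h7
        apply h
        have := c.toSubgraph.edge_vert h7
        rwa [SimpleGraph.Walk.mem_verts_toSubgraph] at this
      rw [h2]; simp
  · rw [SimpleGraph.Subgraph.spanningCoe_adj, ← SimpleGraph.Subgraph.mem_edgeSet,
      SimpleGraph.Walk.mem_edges_toSubgraph]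

lemma toEv {G : SimpleGraph V} (F : List (Σ u : V, G.Walk u u)) (hF : ∀ C ∈ F, C.2.IsCycle) :
    ∃ L, EvL G L ∧ ∀ a b, mul L a b = F.countP (fun C => decide (s(a, b) ∈ C.2.edges)) := by
  induction F with
  | nil => exact ⟨[], by simp [EvL], by simp⟩
  | cons C F ih =>
    obtain ⟨L, l1, l2⟩ := ih (fun C' h => hF C' (List.mem_cons_of_mem _ h))
    obtain ⟨c1, c2, c3⟩ := cyc_ev C.2 (hF C List.mem_cons_self)
    refine ⟨C.2.toSubgraph.spanningCoe :: L, ?_, fun a b => ?_⟩
    · intro K hK
      rcases List.mem_cons.1 hK with rfl | hK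
      · exact ⟨c1, c2⟩
      · exact l1 K hK
    · rw [mul_cons, l2, List.countP_cons, add_comm]
      congr 1
      unfold ind
      simp only [c3, decide_eq_true_eq]

lemma toCyc1 {G : SimpleGraph V} (K : SimpleGraph V) (hK : K ≤ G) (he : Ev K) :
    ∃ F : List (Σ u : V, G.Walk u u), (∀ C ∈ F, C.2.IsCycle) ∧
      ∀ a b, F.countP (fun C => decide (s(a, b) ∈ C.2.edges)) = ind K a b := by
  obtain ⟨L, l1, l2⟩ := Pool.Agent.W150.OC.decomp _ K rfl (fun v => by rw [← dg_eq]; exact he v)
  refine ⟨L.map (fun d => ⟨d.1, d.2.mapLe hK⟩), ?_, fun a b => ?_⟩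
  · intro C hC
    obtain ⟨d, hd, rfl⟩ := List.mem_map.1 hC
    exact (l1 d hd).mapLe hK
  · have h1 : ∀ L : List (Σ v : V, K.Walk v v), (∀ c ∈ L, c.2.IsCycle) →
        (L.map (fun d => (⟨d.1, d.2.mapLe hK⟩ : Σ u : V, G.Walk u u))).countP
          (fun C => decide (s(a, b) ∈ C.2.edges)) = (L.map fun c => c.2.edges.count s(a, b)).sum := by
      intro L hL
      induction L with
      | nil => simp
      | cons c L ih =>
        rw [List.map_cons, List.countP_cons, ih (fun d h => hL d (List.mem_cons_of_mem _ h)),
          List.map_cons, List.sum_cons, add_comm]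
        congr 1
        have hc := (hL c List.mem_cons_self).isTrail.edges_nodup
        simp only [SimpleGraph.Walk.edges_mapLe_eq_edges, decide_eq_true_eq]
        by_cases h : s(a, b) ∈ c.2.edges
        · rw [if_pos h]
          exact (List.count_eq_one_of_mem hc h).symm
        · rw [if_neg h]
          exact (List.count_eq_zero.2 h).symm
    rw [h1 L l1]
    unfold ind
    by_cases h : K.Adj a b
    · rw [if_pos h]; exact l2 s(a, b) h
    · rw [if_neg h, List.sum_eq_zero_iff]
      intro x hx
      obtain ⟨d, _, rfl⟩ := List.mem_map.1 hx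
      rw [List.count_eq_zero]
      exact fun h4 => h (d.2.edges_subset_edgeSet h4)

lemma toCyc {G : SimpleGraph V} (L : List (SimpleGraph V)) (hL : EvL G L) :
    ∃ F : List (Σ u : V, G.Walk u u), (∀ C ∈ F, C.2.IsCycle) ∧
      ∀ a b, F.countP (fun C => decide (s(a, b) ∈ C.2.edges)) = mul L a b := by
  induction L with
  | nil => exact ⟨[], by simp, by simp⟩
  | cons K L ih =>
    obtain ⟨F, f1, f2⟩ := ih (fun K' h => hL K' (List.mem_cons_of_mem _ h))
    obtain ⟨F', f3, f4⟩ := toCyc1 K (hL K List.mem_cons_self).1 (hL K List.mem_cons_self).2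
    refine ⟨F' ++ F, fun C hC => ?_, fun a b => ?_⟩
    · rcases List.mem_append.1 hC with h | h
      · exact f3 C h
      · exact f1 C h
    · rw [List.countP_append, f2, f4, mul_cons]

lemma list_deg (l : List (Sym2 V)) (hl : l.Nodup) (v : V) :
    (∑ w, if s(v, w) ∈ l then 1 else 0) = l.countP (fun e => decide (v ∈ e)) := by
  rw [← Finset.card_filter, List.countP_eq_length_filter,
    ← List.toFinset_card_of_nodup (hl.filter _)]
  refine Finset.card_bij (fun w _ => s(v, w)) ?_ ?_ ?_
  · intro w hw; simpa using hw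
  · intro w _ w' _ h; exact Sym2.congr_right.1 h
  · intro e he
    simp only [List.mem_toFinset, List.mem_filter, decide_eq_true_eq] at he
    obtain ⟨w, rfl⟩ := Sym2.mem_iff_exists.1 he.2
    exact ⟨w, by simpa using he.1, rfl⟩

lemma list_sum (l : List (Sym2 V)) (hl : ∀ e ∈ l, ¬ e.IsDiag) :
    ∑ v, l.countP (fun e => decide (v ∈ e)) = 2 * l.length := by
  induction l with
  | nil => simp
  | cons e l ih =>
    have h1 := ih (fun e he => hl e (List.mem_cons_of_mem _ he))
    have h2 := hl e List.mem_cons_self
    simp only [List.countP_cons, Finset.sum_add_distrib, h1, List.length_cons]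
    induction e using Sym2.ind with
    | _ a b =>
      have hab : a ≠ b := by simpa using h2
      have : ∑ v : V, (if decide (v ∈ s(a, b)) = true then 1 else 0) = 2 := by
        rw [← Finset.card_filter, ← Finset.card_pair hab]
        refine congrArg Finset.card ?_
        ext v; simp
      omega

lemma len_eq {G : SimpleGraph V} (F : List (Σ u : V, G.Walk u u)) (hF : ∀ C ∈ F, C.2.IsCycle) :
    ∑ a, ∑ b, F.countP (fun C => decide (s(a, b) ∈ C.2.edges)) = 2 * coverLength F := by
  unfold coverLength
  induction F with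
  | nil => simp
  | cons C F ih =>
    simp only [List.countP_cons, Finset.sum_add_distrib,
      ih (fun C' h => hF C' (List.mem_cons_of_mem _ h)), List.map_cons, List.sum_cons,
      decide_eq_true_eq]
    have hc := hF C List.mem_cons_self
    have : ∑ a, ∑ b, (if s(a, b) ∈ C.2.edges then 1 else 0) = 2 * C.2.length := by
      rw [Finset.sum_congr rfl (fun v _ => list_deg _ hc.isTrail.edges_nodup v),
        list_sum _ (fun e he => G.not_isDiag_of_mem_edgeSet (C.2.edges_subset_edgeSet he)),
        SimpleGraph.Walk.length_edges]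
    omega

lemma evCover_iff (G : SimpleGraph V) (w : Sym2 V → ℕ) :
    (∃ F, IsCycleWCover G w F) ↔ EvCover G (fun u v => w s(u, v)) := by
  constructor
  · rintro ⟨F, f1, f2⟩
    obtain ⟨L, l1, l2⟩ := toEv F f1
    refine ⟨L, l1, fun u v h => ?_⟩
    rw [l2]
    refine Eq.trans ?_ (f2 s(u, v) h)
    refine List.countP_congr fun C _ => ?_
    simp only [decide_eq_true_eq]
  · rintro ⟨L, l1, l2⟩
    obtain ⟨F, f1, f2⟩ := toCyc L l1
    refine ⟨F, f1, fun e he => ?_⟩
    induction e using Sym2.ind with
    | _ a b =>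
      refine Eq.trans ?_ (l2 a b he)
      rw [← f2]

/-! ### eulerian weights -/

lemma cut_single (G : SimpleGraph V) (w : Sym2 V → ℕ) (v : V) :
    cutWeight G w {v} = ∑ u, if G.Adj v u then w s(v, u) else 0 := by
  unfold cutWeight
  rw [Finset.sum_singleton]
  rw [← Finset.sum_add_sum_compl {v} (fun u => if G.Adj v u then w s(v, u) else 0)]
  rw [Finset.sum_singleton]
  simp

lemma eulerian_iff (G : SimpleGraph V) (w : Sym2 V → ℕ) :
    IsEulerianWeight G w ↔ (∀ u v, G.Adj u v → w s(u, v) = 1 ∨ w s(u, v) = 2) ∧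
      ∀ v, Even (∑ u, if G.Adj v u then w s(v, u) else 0) := by
  constructor
  · rintro ⟨h1, h2⟩
    refine ⟨fun u v h => h1 _ h, fun v => ?_⟩
    rw [← cut_single]
    exact h2 {v}
  · rintro ⟨h1, h2⟩
    refine ⟨fun e he => ?_, fun S => ?_⟩
    · induction e using Sym2.ind with
      | _ a b => exact h1 a b he
    · have := even_cut (fun u v => if G.Adj u v then w s(u, v) else 0) (fun u v => by
        simp only [SimpleGraph.adj_comm, Sym2.eq_swap]) (fun u => by simp) h2 S
      unfold cutWeight
      convert this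

end

end Pool.Agent.KS6_61.TR
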