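import Pool.Agent.KS6_61.TR.Tour

/-! # Expansions of vertices to triangles: contraction and lifting of covers -/

set_option autoImplicit false
set_option linter.unusedSectionVars false

open Classical Finset
open Pool.Agent.Results.MP_b9ebd9_co.ThreeConnectedCounterexample
  (ThreeConnected IsPostmanTour CPP IsCycleCover coverLength SCC cutWeight IsEulerianWeight
    IsCycleWCover CycleCoverProperty even_cut even_inner)

namespace Pool.Agent.KS6_61.TR

/-- `H` is obtained from `G` by expanding some vertices to triangles; `port v u` is the vertex of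
`H` over `v` at which the edge `vu` is attached. -/
structure Exp {V W : Type} (G : SimpleGraph V) (H : SimpleGraph W) (π : W → V)
    (port : V → V → W) : Prop where
  fib : ∀ v u, G.Adj v u → π (port v u) = v
  surj : ∀ x, ∃ u, G.Adj (π x) u ∧ port (π x) u = x
  adj_iff : ∀ x y, H.Adj x y ↔ (π x = π y ∧ x ≠ y) ∨
    (G.Adj (π x) (π y) ∧ x = port (π x) (π y) ∧ y = port (π y) (π x))
  alt : ∀ v, (∀ u u', G.Adj v u → G.Adj v u' → port v u = port v u') ∨
    (∀ u u', G.Adj v u → G.Adj v u' → port v u = port v u' → u = u')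

section
variable {V W : Type} [Fintype V] [Fintype W] {G : SimpleGraph V} {H : SimpleGraph W}
  {π : W → V} {port : V → V → W}

lemma Exp.across (E : Exp G H π port) {u v : V} (h : G.Adj u v) :
    H.Adj (port u v) (port v u) := by
  rw [E.adj_iff, E.fib u v h, E.fib v u h.symm]
  exact Or.inr ⟨h, rfl, rfl⟩

lemma Exp.inside (E : Exp G H π port) {v u u' : V} (h : G.Adj v u) (h' : G.Adj v u')
    (hne : port v u ≠ port v u') : H.Adj (port v u) (port v u') := by
  rw [E.adj_iff, E.fib v u h, E.fib v u' h']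
  exact Or.inl ⟨rfl, hne⟩

lemma Exp.nbr_coll (E : Exp G H π port) {v a b c : V} (hN : ∀ w, G.Adj v w ↔ w = a ∨ w = b ∨ w = c)
    (hcol : ∀ u u', G.Adj v u → G.Adj v u' → port v u = port v u') {x : W} (hx : π x = v) (y : W)
    (hy : H.Adj x y) : y = port a v ∨ y = port b v ∨ y = port c v := by
  rw [E.adj_iff] at hy
  rcases hy with ⟨h1, h2⟩ | ⟨h1, h2, h3⟩
  · exfalso
    obtain ⟨u, hu, hu'⟩ := E.surj x
    obtain ⟨u', hu2, hu2'⟩ := E.surj y
    rw [← h1, hx] at hu2 hu2'
    rw [hx] at hu hu'
    exact h2 (by rw [← hu', ← hu2']; exact hcol _ _ hu hu2)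
  · rw [hx] at h1 h3
    rcases (hN _).1 h1 with h | h | h
    · left; rw [h3, h]
    · right; left; rw [h3, h]
    · right; right; rw [h3, h]

lemma Exp.nbr_inj (E : Exp G H π port) {v a b c : V} (hN : ∀ w, G.Adj v w ↔ w = a ∨ w = b ∨ w = c)
    (hinj : ∀ u u', G.Adj v u → G.Adj v u' → port v u = port v u' → u = u') (y : W)
    (hy : H.Adj (port v a) y) : y = port a v ∨ y = port v b ∨ y = port v c := by
  have ha : G.Adj v a := (hN a).2 (Or.inl rfl)
  rw [E.adj_iff, E.fib v a ha] at hy
  rcases hy with ⟨h1, h2⟩ | ⟨h1, h2, h3⟩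
  · obtain ⟨u, hu, hu'⟩ := E.surj y
    rw [← h1] at hu hu'
    rcases (hN _).1 hu with h | h | h
    · exfalso; subst h; exact h2 hu'
    · right; left; rw [← hu', h]
    · right; right; rw [← hu', h]
  · have := hinj _ _ ha h1 h2
    left
    rw [h3, ← this]

lemma Exp.sum_coll (E : Exp G H π port) {v a b c : V} (h1 : a ≠ b) (h2 : a ≠ c) (h3 : b ≠ c)
    (hN : ∀ w, G.Adj v w ↔ w = a ∨ w = b ∨ w = c)
    (hcol : ∀ u u', G.Adj v u → G.Adj v u' → port v u = port v u') {x : W} (hx : π x = v)
    (g : W → ℕ) (hg : ∀ y, ¬ H.Adj x y → g y = 0) :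
    ∑ y, g y = g (port a v) + g (port b v) + g (port c v) := by
  have ha : G.Adj v a := (hN a).2 (Or.inl rfl)
  have hb : G.Adj v b := (hN b).2 (Or.inr (Or.inl rfl))
  have hc : G.Adj v c := (hN c).2 (Or.inr (Or.inr rfl))
  have pa := E.fib a v ha.symm
  have pb := E.fib b v hb.symm
  have pc := E.fib c v hc.symm
  refine sum3 g (fun h => h1 ?_) (fun h => h2 ?_) (fun h => h3 ?_) (fun y hy => hg y fun hxy => ?_)
  · rw [← pa, h, pb]
  · rw [← pa, h, pc]
  · rw [← pb, h, pc]
  · exact hy (E.nbr_coll hN hcol hx y hxy)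

lemma Exp.sum_inj (E : Exp G H π port) {v a b c : V} (h3 : b ≠ c)
    (hN : ∀ w, G.Adj v w ↔ w = a ∨ w = b ∨ w = c)
    (hinj : ∀ u u', G.Adj v u → G.Adj v u' → port v u = port v u' → u = u')
    (g : W → ℕ) (hg : ∀ y, ¬ H.Adj (port v a) y → g y = 0) :
    ∑ y, g y = g (port a v) + g (port v b) + g (port v c) := by
  have ha : G.Adj v a := (hN a).2 (Or.inl rfl)
  have hb : G.Adj v b := (hN b).2 (Or.inr (Or.inl rfl))
  have hc : G.Adj v c := (hN c).2 (Or.inr (Or.inr rfl))
  have pa := E.fib a v ha.symm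
  have pb := E.fib v b hb
  have pc := E.fib v c hc
  refine sum3 g (fun h => ha.ne ?_) (fun h => ha.ne ?_) (fun h => h3 ?_)
    (fun y hy => hg y fun hxy => ?_)
  · rw [← pa, h, pb]
  · rw [← pa, h, pc]
  · exact hinj _ _ hb hc h
  · exact hy (E.nbr_inj hN hinj y hxy)

/-! ### contraction -/

/-- the subgraph of `G` formed by the edges of `K` between different fibres -/
def con (G : SimpleGraph V) (port : V → V → W) (K : SimpleGraph W) : SimpleGraph V where
  Adj u v := G.Adj u v ∧ K.Adj (port u v) (port v u)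
  symm := ⟨fun _ _ h => ⟨h.1.symm, h.2.symm⟩⟩
  loopless := ⟨fun _ h => h.1.ne rfl⟩

lemma con_le (K : SimpleGraph W) : con G port K ≤ G := fun _ _ h => h.1

lemma ind_con {K : SimpleGraph W} {u v : V} (h : G.Adj u v) :
    ind (con G port K) u v = ind K (port u v) (port v u) := by
  unfold ind con
  simp [h]

lemma dg3 {K : SimpleGraph V} (hK : K ≤ G) {v a b c : V} (h1 : a ≠ b) (h2 : a ≠ c) (h3 : b ≠ c)
    (hN : ∀ w, G.Adj v w ↔ w = a ∨ w = b ∨ w = c) :
    dg K v = ind K v a + ind K v b + ind K v c := by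
  unfold dg
  refine sum3 _ h1 h2 h3 (fun w hw => ?_)
  unfold ind
  rw [if_neg]
  exact fun h => hw ((hN w).1 (hK h))

lemma ind_zero {K : SimpleGraph W} (hK : K ≤ H) {x y : W} (h : ¬ H.Adj x y) : ind K x y = 0 := by
  unfold ind
  rw [if_neg]
  exact fun h' => h (hK h')

lemma Exp.con_ev (E : Exp G H π port) (hc : Cubic G) {K : SimpleGraph W} (hK : K ≤ H)
    (he : Ev K) : Ev (con G port K) := by
  intro v
  obtain ⟨a, b, c, h1, h2, h3, hN⟩ := nbr3 hc v
  have ha : G.Adj v a := (hN a).2 (Or.inl rfl)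
  have hb : G.Adj v b := (hN b).2 (Or.inr (Or.inl rfl))
  have hc' : G.Adj v c := (hN c).2 (Or.inr (Or.inr rfl))
  rw [dg3 (con_le K) h1 h2 h3 hN, ind_con ha, ind_con hb, ind_con hc']
  rcases E.alt v with hcol | hinj
  · have := he (port v a)
    unfold dg at this
    rw [E.sum_coll h1 h2 h3 hN hcol (E.fib v a ha) _ (fun y hy => ind_zero hK hy)] at this
    rw [← hcol a b ha hb, ← hcol a c ha hc']
    exact this
  · have e1 := he (port v a)
    have e2 := he (port v b)
    have e3 := he (port v c)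
    unfold dg at e1 e2 e3
    rw [E.sum_inj h3 hN hinj _ (fun y hy => ind_zero hK hy)] at e1
    rw [E.sum_inj (a := b) (b := a) (c := c) h2
      (fun w => by rw [hN]; tauto) hinj _ (fun y hy => ind_zero hK hy)] at e2
    rw [E.sum_inj (a := c) (b := a) (c := b) h1
      (fun w => by rw [hN]; tauto) hinj _ (fun y hy => ind_zero hK hy)] at e3
    rw [ind_symm K (port v b) (port v a)] at e2
    rw [ind_symm K (port v c) (port v a), ind_symm K (port v c) (port v b)] at e3
    obtain ⟨k1, e1⟩ := e1
    obtain ⟨k2, e2⟩ := e2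
    obtain ⟨k3, e3⟩ := e3
    rw [Nat.even_iff]
    omega

lemma Exp.contract (E : Exp G H π port) (hc : Cubic G) {w' : W → W → ℕ}
    (h : EvCover H w') : EvCover G (fun u v => w' (port u v) (port v u)) := by
  obtain ⟨L, l1, l2⟩ := h
  refine ⟨L.map (con G port), ?_, fun u v huv => ?_⟩
  · intro K' hK'
    obtain ⟨K, hK, rfl⟩ := List.mem_map.1 hK'
    exact ⟨fun _ _ h => h.1, E.con_ev hc (l1 K hK).1 (l1 K hK).2⟩
  · show _ = w' (port u v) (port v u)
    rw [← l2 _ _ (E.across huv)]
    unfold mul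
    rw [List.map_map]
    congr 1
    exact List.map_congr_left (fun K _ => ind_con huv)

/-! ### lifting -/

/-- `K` uses the edge attached at `x` -/
def touch (G : SimpleGraph V) (π : W → V) (port : V → V → W) (K : SimpleGraph V) (x : W) : Prop :=
  ∃ u, G.Adj (π x) u ∧ port (π x) u = x ∧ K.Adj (π x) u

/-- lifting an even subgraph; at the vertices with `f v = true` along the longer side of the
triangle -/
def lift (G : SimpleGraph V) (H : SimpleGraph W) (π : W → V) (port : V → V → W) (f : V → Bool)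
    (K : SimpleGraph V) : SimpleGraph W where
  Adj x y := H.Adj x y ∧ (π x = π y → if f (π x) then
      ¬ (touch G π port K x ↔ touch G π port K y) else touch G π port K x ∧ touch G π port K y) ∧
    (π x ≠ π y → K.Adj (π x) (π y))
  symm := ⟨fun x y h => ⟨h.1.symm, fun h' => by
      have := h.2.1 h'.symm
      rw [h'] ; split_ifs at this ⊢ with h1
      · exact fun h'' => this h''.symm
      · exact this.symm, fun h' => (h.2.2 (Ne.symm h')).symm⟩⟩
  loopless := ⟨fun _ h => h.1.ne rfl⟩

lemma Exp.touch_iff (E : Exp G H π port) {K : SimpleGraph V} {v u : V} (h : G.Adj v u)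
    (hinj : ∀ u u', G.Adj v u → G.Adj v u' → port v u = port v u' → u = u') :
    touch G π port K (port v u) ↔ K.Adj v u := by
  unfold touch
  rw [E.fib v u h]
  constructor
  · rintro ⟨u', h1, h2, h3⟩
    rwa [hinj _ _ h1 h h2] at h3
  · intro h'
    exact ⟨u, h, rfl, h'⟩

lemma Exp.ind_lift_across (E : Exp G H π port) (f : V → Bool) (K : SimpleGraph V) {u v : V}
    (h : G.Adj u v) : ind (lift G H π port f K) (port u v) (port v u) = ind K u v := by
  unfold ind
  have : (lift G H π port f K).Adj (port u v) (port v u) ↔ K.Adj u v := by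
    unfold lift
    simp only [E.fib u v h, E.fib v u h.symm]
    constructor
    · rintro ⟨_, _, h3⟩
      exact h3 h.ne
    · intro h'
      exact ⟨E.across h, fun h'' => absurd h'' h.ne, fun _ => h'⟩
  simp only [this]

lemma Exp.ind_lift_inside (E : Exp G H π port) (f : V → Bool) (K : SimpleGraph V) {v u u' : V}
    (h : G.Adj v u) (h' : G.Adj v u') (hne : u ≠ u')
    (hinj : ∀ u u', G.Adj v u → G.Adj v u' → port v u = port v u' → u = u') :
    ind (lift G H π port f K) (port v u) (port v u') = if f v then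
      (if (K.Adj v u ↔ K.Adj v u') then 0 else 1) else (if K.Adj v u ∧ K.Adj v u' then 1 else 0) := by
  unfold ind
  have hne' : port v u ≠ port v u' := fun h'' => hne (hinj _ _ h h' h'')
  have : (lift G H π port f K).Adj (port v u) (port v u') ↔ if f v then
      ¬ (K.Adj v u ↔ K.Adj v u') else K.Adj v u ∧ K.Adj v u' := by
    unfold lift
    simp only [E.fib v u h, E.fib v u' h', E.touch_iff h hinj, E.touch_iff h' hinj]
    constructor
    · rintro ⟨_, h3, _⟩
      exact h3 trivial
    · intro h''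
      exact ⟨E.inside h h' hne', fun _ => h'', fun h3 => absurd rfl h3⟩
  simp only [this]
  split_ifs <;> simp_all

lemma Exp.lift_ev (E : Exp G H π port) (hc : Cubic G) (f : V → Bool) {K : SimpleGraph V}
    (hK : K ≤ G) (he : Ev K) : Ev (lift G H π port f K) := by
  intro x
  obtain ⟨u0, hu0, hx0⟩ := E.surj x
  set v := π x with hv
  have hle : lift G H π port f K ≤ H := fun _ _ h => h.1
  have hev := he v
  rcases E.alt v with hcol | hinj
  · obtain ⟨a, b, c, h1, h2, h3, hN⟩ := nbr3 hc v
    have ha : G.Adj v a := (hN a).2 (Or.inl rfl)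
    have hb : G.Adj v b := (hN b).2 (Or.inr (Or.inl rfl))
    have hc' : G.Adj v c := (hN c).2 (Or.inr (Or.inr rfl))
    unfold dg
    rw [E.sum_coll h1 h2 h3 hN hcol hv.symm _ (fun y hy => ind_zero hle hy)]
    rw [dg3 hK h1 h2 h3 hN] at hev
    have xa : x = port v a := by rw [← hx0]; exact hcol _ _ hu0 ha
    have xb : x = port v b := by rw [← hx0]; exact hcol _ _ hu0 hb
    have xc : x = port v c := by rw [← hx0]; exact hcol _ _ hu0 hc'
    have e1 : ind (lift G H π port f K) x (port a v) = ind K v a := by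
      rw [xa]; exact E.ind_lift_across f K ha
    have e2 : ind (lift G H π port f K) x (port b v) = ind K v b := by
      rw [xb]; exact E.ind_lift_across f K hb
    have e3 : ind (lift G H π port f K) x (port c v) = ind K v c := by
      rw [xc]; exact E.ind_lift_across f K hc'
    rw [e1, e2, e3]
    exact hev
  · -- name the neighbours so that `u0` comes first
    obtain ⟨b, c, h1, h2, h3, hN⟩ : ∃ b c, u0 ≠ b ∧ u0 ≠ c ∧ b ≠ c ∧
        ∀ w, G.Adj v w ↔ w = u0 ∨ w = b ∨ w = c := by
      obtain ⟨a, b, c, h1, h2, h3, hN⟩ := nbr3 hc v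
      rcases (hN u0).1 hu0 with h | h | h
      · exact ⟨b, c, h ▸ h1, h ▸ h2, h3, fun w => by rw [hN, h]⟩
      · exact ⟨a, c, h ▸ h1.symm, h ▸ h3, h2, fun w => by rw [hN, h]; tauto⟩
      · exact ⟨a, b, h ▸ h2.symm, h ▸ h3.symm, h1, fun w => by rw [hN, h]; tauto⟩
    have hb : G.Adj v b := (hN b).2 (Or.inr (Or.inl rfl))
    have hc' : G.Adj v c := (hN c).2 (Or.inr (Or.inr rfl))
    unfold dg
    rw [← hx0, E.sum_inj h3 hN hinj _ (fun y hy => ind_zero hle hy)]
    rw [dg3 hK h1 h2 h3 hN] at hev
    rw [E.ind_lift_across f K hu0, E.ind_lift_inside f K hu0 hb h1 hinj,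
      E.ind_lift_inside f K hu0 hc' h2 hinj]
    unfold ind at hev ⊢
    rw [Nat.even_iff] at hev ⊢
    by_cases k1 : K.Adj v u0 <;> by_cases k2 : K.Adj v b <;> by_cases k3 : K.Adj v c <;>
      cases f v <;> simp [k1, k2, k3] at hev ⊢

/-- number of members through both edges at `v` -/
noncomputable def cnt (L : List (SimpleGraph V)) (v u u' : V) : ℕ :=
  (L.map (fun K => if K.Adj v u ∧ K.Adj v u' then 1 else 0)).sum

lemma cnt_symm (L : List (SimpleGraph V)) (v u u' : V) : cnt L v u u' = cnt L v u' u := by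
  unfold cnt
  congr 1
  exact List.map_congr_left (fun K _ => by simp only [and_comm])

lemma mul_cnt {L : List (SimpleGraph V)} (hL : EvL G L) {v a b c : V} (h1 : a ≠ b) (h2 : a ≠ c)
    (h3 : b ≠ c) (hN : ∀ w, G.Adj v w ↔ w = a ∨ w = b ∨ w = c) :
    mul L v a = cnt L v a b + cnt L v a c := by
  induction L with
  | nil => rfl
  | cons K L ih =>
    have i1 := ih (fun K' h => hL K' (List.mem_cons_of_mem _ h))
    have i2 := (hL K List.mem_cons_self).2 v
    rw [dg3 (hL K List.mem_cons_self).1 h1 h2 h3 hN, Nat.even_iff] at i2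
    have i3 : ind K v a = (if K.Adj v a ∧ K.Adj v b then 1 else 0)
        + (if K.Adj v a ∧ K.Adj v c then 1 else 0) := by
      unfold ind at i2 ⊢
      by_cases k1 : K.Adj v a <;> by_cases k2 : K.Adj v b <;> by_cases k3 : K.Adj v c <;>
        simp [k1, k2, k3] at i2 ⊢
    unfold cnt at i1 ⊢
    rw [mul_cons, i1, i3, List.map_cons, List.sum_cons, List.map_cons, List.sum_cons]
    omega

lemma mul_lift_across (E : Exp G H π port) (f : V → Bool) (L : List (SimpleGraph V)) {u v : V}
    (h : G.Adj u v) : mul (L.map (lift G H π port f)) (port u v) (port v u) = mul L u v := by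
  unfold mul
  rw [List.map_map]
  congr 1
  exact List.map_congr_left (fun K _ => E.ind_lift_across f K h)

lemma mul_lift_inside (E : Exp G H π port) (f : V → Bool) (L : List (SimpleGraph V)) {v u u' : V}
    (h : G.Adj v u) (h' : G.Adj v u') (hne : u ≠ u')
    (hinj : ∀ u u', G.Adj v u → G.Adj v u' → port v u = port v u' → u = u') :
    if f v then mul (L.map (lift G H π port f)) (port v u) (port v u') + 2 * cnt L v u u' =
        mul L v u + mul L v u'
      else mul (L.map (lift G H π port f)) (port v u) (port v u') = cnt L v u u' := by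
  induction L with
  | nil => simp [cnt]
  | cons K L ih =>
    have i3 := E.ind_lift_inside f K h h' hne hinj
    rw [List.map_cons, mul_cons, mul_cons, mul_cons]
    unfold cnt at ih ⊢
    rw [List.map_cons, List.sum_cons]
    generalize ind (lift G H π port f K) (port v u) (port v u') = i at i3 ⊢
    generalize mul (List.map (lift G H π port f) L) (port v u) (port v u') = j at ih ⊢
    generalize mul L v u = j1 at ih ⊢
    generalize mul L v u' = j2 at ih ⊢
    generalize (List.map (fun K : SimpleGraph V => if K.Adj v u ∧ K.Adj v u' then 1 else 0) L).sum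
      = j3 at ih ⊢
    unfold ind
    by_cases k1 : K.Adj v u <;> by_cases k2 : K.Adj v u' <;> cases hf : f v <;>
      simp [k1, k2, hf] at ih i3 ⊢ <;> omega

/-- the local choice at an expanded vertex -/
lemma local_choice {a b c nab nac nbc tab tac tbc : ℕ} (ha : a = 1 ∨ a = 2) (hb : b = 1 ∨ b = 2)
    (hc : c = 1 ∨ c = 2) (t1 : tab = 1 ∨ tab = 2) (t2 : tac = 1 ∨ tac = 2)
    (t3 : tbc = 1 ∨ tbc = 2) (e1 : a = nab + nac) (e2 : b = nab + nbc) (e3 : c = nac + nbc)
    (p1 : Even (a + tab + tac)) (p2 : Even (b + tab + tbc)) (p3 : Even (c + tac + tbc)) :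
    ∃ f Q : Bool, ((if f then a + b - 2 * nab else nab) + Q.toNat = tab) ∧
      ((if f then a + c - 2 * nac else nac) + Q.toNat = tac) ∧
      ((if f then b + c - 2 * nbc else nbc) + Q.toNat = tbc) := by
  rw [Nat.even_iff] at p1 p2 p3
  have hcases : (nab = tab ∧ nac = tac ∧ nbc = tbc) ∨
      (nab + 1 = tab ∧ nac + 1 = tac ∧ nbc + 1 = tbc) ∨
      (a + b - 2 * nab = tab ∧ a + c - 2 * nac = tac ∧ b + c - 2 * nbc = tbc) := by
    rcases ha with rfl | rfl <;> rcases hb with rfl | rfl <;> rcases hc with rfl | rfl <;>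
      rcases t1 with rfl | rfl <;> rcases t2 with rfl | rfl <;> rcases t3 with rfl | rfl <;> omega
  rcases hcases with ⟨q1, q2, q3⟩ | ⟨q1, q2, q3⟩ | ⟨q1, q2, q3⟩
  · exact ⟨false, false, by simpa using q1, by simpa using q2, by simpa using q3⟩
  · exact ⟨false, true, by simpa using q1, by simpa using q2, by simpa using q3⟩
  · exact ⟨true, false, by simpa using q1, by simpa using q2, by simpa using q3⟩

end

end Pool.Agent.KS6_61.TR
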