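import Pool.Agent.KS6_61.TR.Even

/-! # Perfect matchings of cubic 3-connected graphs (Petersen's theorem) -/

set_option autoImplicit false
set_option linter.unusedSectionVars false

open Classical Finset
open Pool.Agent.Results.MP_b9ebd9_co.ThreeConnectedCounterexample
  (ThreeConnected IsPostmanTour CPP IsCycleCover coverLength SCC cutWeight IsEulerianWeight
    IsCycleWCover CycleCoverProperty even_cut even_inner)

namespace Pool.Agent.KS6_61.TR

section
variable {V : Type} [Fintype V]

lemma nbr3 {G : SimpleGraph V} (hc : Cubic G) (v : V) : ∃ a b c, a ≠ b ∧ a ≠ c ∧ b ≠ c ∧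
    ∀ w, G.Adj v w ↔ w = a ∨ w = b ∨ w = c := by
  obtain ⟨a, b, c, h1, h2, h3, h4⟩ := Set.ncard_eq_three.1 (hc v)
  refine ⟨a, b, c, h1, h2, h3, fun w => ?_⟩
  rw [← SimpleGraph.mem_neighborSet, h4]
  simp

lemma sum3 (f : V → ℕ) {a b c : V} (h1 : a ≠ b) (h2 : a ≠ c) (h3 : b ≠ c)
    (hf : ∀ w, ¬ (w = a ∨ w = b ∨ w = c) → f w = 0) : ∑ w, f w = f a + f b + f c := by
  rw [← Finset.sum_subset (Finset.subset_univ {a, b, c})]
  · rw [Finset.sum_insert (by simp [h1, h2]), Finset.sum_insert (by simp [h3]),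
      Finset.sum_singleton, add_assoc]
  · intro x _ hx
    apply hf
    simpa using hx

lemma dg_cubic {G : SimpleGraph V} (hc : Cubic G) (v : V) : dg G v = 3 := by
  rw [dg_eq, hc v]

/-- propagation along a graph without at most two vertices -/
lemma tc_closed {G : SimpleGraph V} (h : ThreeConnected G) (S : Finset V) (hS : S.card < 3)
    (P : V → Prop) (hP : ∀ x y, G.Adj x y → x ∉ S → y ∉ S → P x → P y) {a b : V}
    (ha : a ∉ S) (hb : b ∉ S) (h0 : P a) : P b := by
  have hc := h.2 S hS
  obtain ⟨q⟩ := hc.preconnected ⟨a, by simpa using ha⟩ ⟨b, by simpa using hb⟩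
  have : ∀ (x y : ((↑S : Set V)ᶜ : Set V)) (q : (G.induce ((↑S : Set V)ᶜ)).Walk x y),
      P x.1 → P y.1 := by
    intro x y q
    induction q with
    | nil => exact id
    | @cons x y z h q ih =>
      refine fun hx => ih (hP x.1 y.1 h ?_ ?_ hx)
      · exact fun h => x.2 h
      · exact fun h => y.2 h
  exact this _ _ q h0

lemma tc_of_closed {G : SimpleGraph V} (h3 : 3 < Fintype.card V)
    (h : ∀ S : Finset V, S.card < 3 → ∀ P : V → Prop,
      (∀ x y, G.Adj x y → x ∉ S → y ∉ S → P x → P y) → ∀ a b, a ∉ S → b ∉ S → P a → P b) :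
    ThreeConnected G := by
  refine ⟨h3, fun S hS => ?_⟩
  obtain ⟨u0, hu0⟩ : ∃ u, u ∉ S := by
    by_contra hn
    push Not at hn
    have := Finset.card_le_card (show (univ : Finset V) ⊆ S from fun v _ => hn v)
    rw [Finset.card_univ] at this
    omega
  have m : ∀ v : V, v ∉ S → v ∈ ((↑S : Set V)ᶜ) := fun v hv => by simpa using hv
  have : Nonempty ((↑S : Set V)ᶜ : Set V) := ⟨⟨u0, m u0 hu0⟩⟩
  refine ⟨fun a b => ?_⟩
  have := h S hS (fun v => ∃ h : v ∈ ((↑S : Set V)ᶜ),
    (G.induce ((↑S : Set V)ᶜ)).Reachable a ⟨v, h⟩)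
    (fun u v huv _ hv ⟨h, r⟩ => ⟨m v hv, r.trans (SimpleGraph.Adj.reachable
      (show (G.induce ((↑S : Set V)ᶜ)).Adj ⟨u, h⟩ ⟨v, m v hv⟩ from huv))⟩)
    a.1 b.1 (fun e => a.2 e) (fun e => b.2 e) ⟨a.2, SimpleGraph.Reachable.refl _⟩
  exact this.2

lemma tc_conn {G : SimpleGraph V} (h : ThreeConnected G) : G.Connected := by
  have hne : Nonempty V := by
    rw [← Fintype.card_pos_iff]; have := h.1; omega
  refine ⟨fun a b => ?_⟩
  exact tc_closed h ∅ (by simp) (fun v => G.Reachable a v)
    (fun x y hxy _ _ hx => hx.trans hxy.reachable) (by simp) (by simp)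
    (SimpleGraph.Reachable.refl _)

/-- number of edges leaving `X` -/
noncomputable def cutp (G : SimpleGraph V) (X : Finset V) : ℕ := ∑ u ∈ X, ∑ v ∈ Xᶜ, ind G u v

lemma cutp_odd {G : SimpleGraph V} (hc : Cubic G) (X : Finset V) (hX : Odd X.card) :
    Odd (cutp G X) := by
  have h1 : ∑ u ∈ X, dg G u = (∑ u ∈ X, ∑ v ∈ X, ind G u v) + cutp G X := by
    unfold cutp dg
    rw [← Finset.sum_add_distrib]
    refine Finset.sum_congr rfl fun u _ => ?_
    rw [Finset.sum_add_sum_compl]
  have h2 := even_inner (ind G) (ind_symm G) (fun u => by simp [ind]) X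
  rw [Finset.sum_congr rfl (fun v _ => dg_cubic hc v), Finset.sum_const, smul_eq_mul] at h1
  obtain ⟨a, ha⟩ := hX
  obtain ⟨b, hb⟩ := h2
  rw [Nat.odd_iff]
  omega

lemma cutp_ge {G : SimpleGraph V} (hc : Cubic G) (h3 : ThreeConnected G) (X : Finset V)
    (hX : Odd X.card) : 3 ≤ cutp G X := by
  have hodd := cutp_odd hc X hX
  by_contra hlt
  have h1 : cutp G X = 1 := by
    obtain ⟨a, ha⟩ := hodd
    omega
  -- a crossing edge
  have hex : ∃ a ∈ X, ∃ b ∈ Xᶜ, G.Adj a b := by
    by_contra hn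
    push Not at hn
    have : cutp G X = 0 := by
      unfold cutp
      refine Finset.sum_eq_zero fun u hu => Finset.sum_eq_zero fun v hv => ?_
      unfold ind
      rw [if_neg (hn u hu v hv)]
    omega
  obtain ⟨a, ha, b, hb, hab⟩ := hex
  have hb' : b ∉ X := by simpa using hb
  have huniq : ∀ u ∈ X, ∀ v, v ∉ X → G.Adj u v → u = a ∧ v = b := by
    intro u hu v hv huv
    by_contra hne
    have h2 : 2 ≤ cutp G X := by
      unfold cutp
      rw [← Finset.sum_product']
      have hsub : ({(a, b), (u, v)} : Finset (V × V)) ⊆ X ×ˢ Xᶜ := by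
        intro p hp
        simp only [Finset.mem_insert, Finset.mem_singleton] at hp
        rcases hp with rfl | rfl
        · simp [ha, hb']
        · simp [hu, hv]
      have hne' : (a, b) ≠ (u, v) := by
        intro h
        apply hne
        simp only [Prod.mk.injEq] at h
        exact ⟨h.1.symm, h.2.symm⟩
      calc 2 = ∑ p ∈ ({(a, b), (u, v)} : Finset (V × V)), ind G p.1 p.2 := by
            rw [Finset.sum_pair hne']
            simp [ind, hab, huv]
        _ ≤ _ := Finset.sum_le_sum_of_subset hsub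
    omega
  by_cases hXa : ∃ x ∈ X, x ≠ a
  · obtain ⟨x, hx, hxa⟩ := hXa
    have := tc_closed h3 {a} (by simp) (fun v => v ∈ X) (by
      intro u v huv hu hv huX
      by_contra hvX
      exact hu (by simp [(huniq u huX v hvX huv).1])) (a := x) (b := b) (by simpa using hxa)
      (by simpa using hab.ne') hx
    exact hb' this
  · push Not at hXa
    obtain ⟨p, q, r, hpq, hpr, hqr, hN⟩ := nbr3 hc a
    have hp := (hN p).2 (Or.inl rfl)
    have hq := (hN q).2 (Or.inr (Or.inl rfl))
    have k1 := (huniq a ha p (fun h => hp.ne (hXa p h).symm) hp).2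
    have k2 := (huniq a ha q (fun h => hq.ne (hXa q h).symm) hq).2
    exact hpq (k1.trans k2.symm)

lemma no_violator {G : SimpleGraph V} (hc : Cubic G) (h3 : ThreeConnected G) (S : Set V) :
    ¬ G.IsTutteViolator S := by
  intro hS
  unfold SimpleGraph.IsTutteViolator at hS
  have hverts : ∀ v, v ∈ ((⊤ : G.Subgraph).deleteVerts S).verts ↔ v ∉ S := by
    intro v
    simp
  have hadj : ∀ u v (hu : u ∈ ((⊤ : G.Subgraph).deleteVerts S).verts)
      (hv : v ∈ ((⊤ : G.Subgraph).deleteVerts S).verts), G.Adj u v →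
      ((⊤ : G.Subgraph).deleteVerts S).coe.Adj ⟨u, hu⟩ ⟨v, hv⟩ := by
    intro u v hu hv huv
    rw [SimpleGraph.Subgraph.coe_adj, SimpleGraph.Subgraph.deleteVerts_adj]
    exact ⟨trivial, (hverts u).1 hu, trivial, (hverts v).1 hv, huv⟩
  generalize hH : ((⊤ : G.Subgraph).deleteVerts S) = H at hS hverts hadj
  set K : H.coe.ConnectedComponent → Finset V := fun c =>
    univ.filter (fun v => ∃ hv : v ∈ H.verts, H.coe.connectedComponentMk ⟨v, hv⟩ = c) with hK
  have hmemK : ∀ c v, v ∈ K c ↔ ∃ hv : v ∈ H.verts, H.coe.connectedComponentMk ⟨v, hv⟩ = c := by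
    intro c v
    simp [hK]
  have hKcard : ∀ c, (K c).card = c.supp.ncard := by
    intro c
    have h1 : ((K c : Finset V) : Set V) = Subtype.val '' c.supp := by
      ext v
      rw [Finset.mem_coe, hmemK]
      constructor
      · rintro ⟨hv, h⟩
        exact ⟨⟨v, hv⟩, h, rfl⟩
      · rintro ⟨⟨w, hw⟩, h, rfl⟩
        exact ⟨hw, h⟩
    rw [← Set.ncard_coe_finset, h1, Set.ncard_image_of_injective _ Subtype.val_injective]
  have hKdisj : ∀ c c' v, v ∈ K c → v ∈ K c' → c = c' := by
    intro c c' v h h'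
    obtain ⟨a, ha⟩ := (hmemK c v).1 h
    obtain ⟨b, hb⟩ := (hmemK c' v).1 h'
    rw [← ha, ← hb]
  have hstep : ∀ c u v, u ∈ K c → v ∉ K c → G.Adj u v → v ∈ S := by
    intro c u v hu hv huv
    by_contra hvS
    obtain ⟨hu', hu2⟩ := (hmemK c u).1 hu
    have hv' := (hverts v).2 hvS
    apply hv
    rw [hmemK]
    refine ⟨hv', ?_⟩
    rw [← hu2]
    exact (SimpleGraph.ConnectedComponent.connectedComponentMk_eq_of_adj (hadj u v hu' hv' huv)).symm
  let _ : Fintype H.coe.ConnectedComponent := Fintype.ofFinite _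
  set OF : Finset H.coe.ConnectedComponent := univ.filter (fun c => Odd c.supp.ncard) with hOF
  have hOFcard : H.coe.oddComponents.ncard = OF.card := by
    rw [← Set.ncard_coe_finset]
    congr 1
    ext c
    simp [hOF]
  have hSF : S.ncard = S.toFinset.card := Set.ncard_eq_toFinset_card' S
  have hcut : ∀ c, cutp G (K c) ≤ ∑ u ∈ K c, ∑ s ∈ S.toFinset, ind G u s := by
    intro c
    unfold cutp
    refine Finset.sum_le_sum fun u hu => ?_
    have : ∑ v ∈ (K c)ᶜ, ind G u v = ∑ v ∈ (K c)ᶜ.filter (fun v => v ∈ S.toFinset), ind G u v := by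
      rw [Finset.sum_filter]
      refine Finset.sum_congr rfl fun v hv => ?_
      split_ifs with h
      · rfl
      · unfold ind
        rw [if_neg]
        intro huv
        exact h (by simpa using hstep c u v hu (by simpa using hv) huv)
    rw [this]
    exact Finset.sum_le_sum_of_subset (fun v hv => (Finset.mem_filter.1 hv).2)
  have hle : 3 * OF.card ≤ 3 * S.toFinset.card := by
    calc 3 * OF.card = ∑ _c ∈ OF, 3 := by rw [Finset.sum_const, smul_eq_mul, mul_comm]
      _ ≤ ∑ c ∈ OF, cutp G (K c) := by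
          refine Finset.sum_le_sum fun c hc' => cutp_ge hc h3 _ ?_
          rw [hKcard]
          simpa [hOF] using hc'
      _ ≤ ∑ c ∈ OF, ∑ u ∈ K c, ∑ s ∈ S.toFinset, ind G u s :=
          Finset.sum_le_sum fun c _ => hcut c
      _ = ∑ u ∈ OF.biUnion K, ∑ s ∈ S.toFinset, ind G u s := by
          rw [Finset.sum_biUnion]
          intro c _ c' _ hne
          rw [Function.onFun, Finset.disjoint_left]
          intro e he he'
          exact hne (hKdisj c c' e he he')
      _ ≤ ∑ u, ∑ s ∈ S.toFinset, ind G u s :=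
          Finset.sum_le_sum_of_subset (Finset.subset_univ _)
      _ = ∑ s ∈ S.toFinset, dg G s := by
          rw [Finset.sum_comm]
          refine Finset.sum_congr rfl fun s _ => ?_
          unfold dg
          exact Finset.sum_congr rfl fun u _ => ind_symm G u s
      _ = 3 * S.toFinset.card := by
          rw [Finset.sum_congr rfl (fun v _ => dg_cubic hc v), Finset.sum_const,
            smul_eq_mul, mul_comm]
  omega

/-- Petersen's theorem for 3-connected cubic graphs -/
theorem matching {G : SimpleGraph V} (hc : Cubic G) (h3 : ThreeConnected G) :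
    ∃ m : V → V, (∀ v, G.Adj v (m v)) ∧ ∀ v, m (m v) = v := by
  obtain ⟨M, hM⟩ := SimpleGraph.tutte.2 (no_violator hc h3)
  rw [SimpleGraph.Subgraph.isPerfectMatching_iff] at hM
  choose m hm1 hm2 using hM
  refine ⟨m, fun v => M.adj_sub (hm1 v), fun v => ?_⟩
  exact (hm2 (m v) v (hm1 v).symm).symm

end

end Pool.Agent.KS6_61.TR
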