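import Mathlib

/-! # Merging closed walks in a connected graph -/

set_option autoImplicit false
set_option linter.unusedSectionVars false

open Classical Finset

namespace Pool.Agent.KS6_61.TR

section
variable {V : Type}

lemma merge_step (G : SimpleGraph V) (hG : G.Connected) : ∀ (n : ℕ)
    (R : List (Σ u : V, G.Walk u u)), R.length = n → ∀ (u : V) (p : G.Walk u u),
    (∀ e ∈ G.edgeSet, e ∈ p.edges ∨ ∃ C ∈ R, e ∈ C.2.edges) →
    ∃ (u' : V) (p' : G.Walk u' u'), (∀ e ∈ G.edgeSet, e ∈ p'.edges) ∧
      p'.length ≤ p.length + (R.map (fun C => C.2.length)).sum := by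
  intro n
  induction n with
  | zero =>
    intro R hR u p hp
    have : R = [] := List.length_eq_zero_iff.1 hR
    subst this
    exact ⟨u, p, fun e he => by simpa using hp e he, by simp⟩
  | succ n ih =>
    intro R hR u p hp
    by_cases hx : ∃ C ∈ R, ∃ x, x ∈ C.2.support ∧ x ∈ p.support
    · obtain ⟨C, hC, x, hxC, hxp⟩ := hx
      have hperm := List.perm_cons_erase hC
      have hlen : (R.erase C).length = n := by
        rw [List.length_erase_of_mem hC, hR]; rfl
      obtain ⟨u', p', h1, h2⟩ := ih (R.erase C) hlen x
        ((p.rotate x hxp).append (C.2.rotate x hxC)) (by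
          intro e he
          rw [SimpleGraph.Walk.edges_append, List.mem_append]
          rcases hp e he with h | ⟨D, hD, h⟩
          · exact Or.inl (Or.inl ((p.rotate_edges x hxp).perm.mem_iff.2 h))
          · by_cases hDC : D = C
            · subst hDC
              exact Or.inl (Or.inr ((D.2.rotate_edges x hxC).perm.mem_iff.2 h))
            · exact Or.inr ⟨D, (List.mem_erase_of_ne hDC).2 hD, h⟩)
      refine ⟨u', p', h1, h2.trans ?_⟩
      have e1 : (p.rotate x hxp).length = p.length := SimpleGraph.Walk.length_rotate _ _ _
      have e2 : (C.2.rotate x hxC).length = C.2.length := SimpleGraph.Walk.length_rotate _ _ _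
      have e3 : (R.map (fun C => C.2.length)).sum
          = C.2.length + ((R.erase C).map (fun C => C.2.length)).sum := by
        rw [(hperm.map _).sum_eq, List.map_cons, List.sum_cons]
      rw [SimpleGraph.Walk.length_append, e1, e2, e3]
      omega
    · exfalso
      push Not at hx
      have hclosed : ∀ x y, G.Adj x y → x ∈ p.support → y ∈ p.support := by
        intro x y h hxp
        rcases hp s(x, y) h with h' | ⟨C, hC, h'⟩
        · exact p.snd_mem_support_of_mem_edges h'
        · exact absurd hxp (hx C hC x (C.2.fst_mem_support_of_mem_edges h'))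
      have hall : ∀ y, y ∈ p.support := by
        intro y
        obtain ⟨q⟩ := hG.preconnected u y
        have : ∀ (a b : V) (q : G.Walk a b), a ∈ p.support → b ∈ p.support := by
          intro a b q
          induction q with
          | nil => exact id
          | cons h q ih => exact fun ha => ih (hclosed _ _ h ha)
        exact this u y q p.start_mem_support
      obtain ⟨C, hC⟩ := List.exists_mem_of_length_pos (l := R) (by omega)
      exact hx C hC C.1 C.2.start_mem_support (hall _)

/-- closed walks that together cover all edges can be merged -/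
lemma merge (G : SimpleGraph V) (hG : G.Connected) (R : List (Σ u : V, G.Walk u u))
    (hR : ∀ e ∈ G.edgeSet, ∃ C ∈ R, e ∈ C.2.edges) :
    ∃ (u : V) (p : G.Walk u u), (∀ e ∈ G.edgeSet, e ∈ p.edges) ∧
      p.length ≤ (R.map (fun C => C.2.length)).sum := by
  obtain ⟨v⟩ := hG.nonempty
  obtain ⟨u, p, h1, h2⟩ := merge_step G hG _ R rfl v SimpleGraph.Walk.nil
    (fun e he => Or.inr (hR e he))
  exact ⟨u, p, h1, by simpa using h2⟩

end

end Pool.Agent.KS6_61.TR
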