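import Pool.Agent.KS6_61.TR.Conn

/-! # The Petersen graph -/

set_option autoImplicit false
set_option linter.unusedSectionVars false

open Classical Finset
open Pool.Agent.Results.MP_b9ebd9_co.ThreeConnectedCounterexample
  (ThreeConnected IsPostmanTour CPP IsCycleCover coverLength SCC cutWeight IsEulerianWeight
    IsCycleWCover CycleCoverProperty even_cut even_inner)

namespace Pool.Agent.KS6_61.TR

/-- graph with a given list of edges -/
def gr (l : List (Sym2 (Fin 10))) : SimpleGraph (Fin 10) where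
  Adj x y := x ≠ y ∧ s(x, y) ∈ l
  symm := ⟨fun x y h => ⟨h.1.symm, by rw [Sym2.eq_swap]; exact h.2⟩⟩
  loopless := ⟨fun x h => h.1 rfl⟩

/-- indicator -/
def gi (l : List (Sym2 (Fin 10))) (x y : Fin 10) : ℕ :=
  @ite ℕ (x ≠ y ∧ s(x, y) ∈ l) (inferInstanceAs (Decidable (x ≠ y ∧ s(x, y) ∈ l))) 1 0

lemma ind_gr (l : List (Sym2 (Fin 10))) (x y : Fin 10) : ind (gr l) x y = gi l x y := by
  unfold ind gi
  by_cases h : x ≠ y ∧ s(x, y) ∈ l
  · rw [if_pos h, if_pos (show (gr l).Adj x y from h)]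
  · rw [if_neg h, if_neg (fun h' : (gr l).Adj x y => h h')]

/-- edges of the Petersen graph -/
def pe : List (Sym2 (Fin 10)) :=
  [s(0, 1), s(1, 2), s(2, 3), s(3, 4), s(4, 0), s(0, 5), s(1, 6), s(2, 7), s(3, 8), s(4, 9),
    s(5, 7), s(6, 8), s(7, 9), s(8, 5), s(9, 6)]

/-- the Petersen graph -/
def Pet : SimpleGraph (Fin 10) := gr pe

/-- neighbours -/
def nbp (v : Fin 10) : List (Fin 10) :=
  ([[1, 4, 5], [0, 2, 6], [1, 3, 7], [2, 4, 8], [0, 3, 9], [0, 7, 8], [1, 8, 9], [2, 5, 9],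
    [3, 5, 6], [4, 6, 7]] : List (List (Fin 10))).getD v.1 []

lemma nbp_adj : ∀ v, ∀ w ∈ nbp v, v ≠ w ∧ s(v, w) ∈ pe := by decide +kernel

/-- ranks -/
def tabp : List (List ℕ) :=
  [[146585886976, 146349887488, 146854326272, 146585878784, 146585690368, 146582741248, 219583553792, 146049016064, 137995952384, 9146933504],
   [146349887488, 146617213696, 146617212928, 146617205504, 215336628992, 151179567872, 146566882048, 146080342784, 138027279104, 9178260224],
   [146854326272, 146617212928, 146600435728, 146600427536, 215319851024, 151162789904, 146566881296, 146063564816, 138010501136, 9161482256],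
   [146585878784, 146617205504, 146600427536, 146600428048, 215319839248, 151162782224, 146566873616, 146063557136, 138010493456, 9161474576],
   [146585690368, 215336628992, 215319851024, 215319839248, 215319851536, 219882205712, 215286297104, 214782980624, 206729916944, 9161421328],
   [146582741248, 151179567872, 151162789904, 151162782224, 219882205712, 151162790416, 151129235984, 150357484048, 138277888528, 13723836944],
   [219583553792, 146566882048, 146566881296, 146566873616, 215286297104, 151129235984, 146566881808, 146030010896, 137976947216, 9127928336],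
   [146049016064, 146080342784, 146063564816, 146063557136, 214782980624, 150357484048, 146030010896, 146063565328, 137473630736, 8624611856],
   [137995952384, 138027279104, 138010501136, 138010493456, 206729916944, 138277888528, 137976947216, 137473630736, 138010501648, 571548176],
   [9146933504, 9178260224, 9161482256, 9161474576, 9161421328, 13723836944, 9127928336, 8624611856, 571548176, 9161482768]]

/-- rank of `v` without `a` and `b` -/
def rkp (a b v : Fin 10) : ℕ := ((tabp.getD a.1 []).getD b.1 0) / 16 ^ v.1 % 16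

/-- root -/
def rtp (a b : Fin 10) : Fin 10 :=
  if a ≠ 0 ∧ b ≠ 0 then 0 else if a ≠ 1 ∧ b ≠ 1 then 1 else 2

lemma rk_step : ∀ a b v : Fin 10, v ≠ a → v ≠ b → v = rtp a b ∨
    ∃ u ∈ nbp v, rkp a b u < rkp a b v ∧ u ≠ a ∧ u ≠ b := by decide +kernel

lemma to_root {S : Finset (Fin 10)} {a b : Fin 10} (hab : ∀ s ∈ S, s = a ∨ s = b)
    {P : Fin 10 → Prop} (hP : ∀ x y, Pet.Adj x y → x ∉ S → y ∉ S → P x → P y) :
    ∀ (n : ℕ) (v : Fin 10), rkp a b v ≤ n → v ≠ a → v ≠ b → (P v ↔ P (rtp a b)) := by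
  have hS : ∀ x, x ≠ a → x ≠ b → x ∉ S := fun x h1 h2 h3 => (hab x h3).elim h1 h2
  intro n
  induction n with
  | zero =>
    intro v hv h1 h2
    rcases rk_step a b v h1 h2 with h | ⟨u, _, h, _⟩
    · rw [← h]
    · omega
  | succ n ih =>
    intro v hv h1 h2
    rcases rk_step a b v h1 h2 with h | ⟨u, hu, h, h3, h4⟩
    · rw [← h]
    · rw [← ih u (by omega) h3 h4]
      have hadj : Pet.Adj v u := nbp_adj v u hu
      exact ⟨hP v u hadj (hS v h1 h2) (hS u h3 h4), hP u v hadj.symm (hS u h3 h4) (hS v h1 h2)⟩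

lemma two_of_card' {S : Finset (Fin 10)} (hS : S.card < 3) (x : Fin 10) :
    ∃ s1 s2, (∀ s ∈ S, s = s1 ∨ s = s2) ∧ (s1 ∈ S ∨ s1 = x) ∧ (s2 ∈ S ∨ s2 = x) := by
  rcases Finset.eq_empty_or_nonempty S with rfl | ⟨s1, h1⟩
  · exact ⟨x, x, by simp⟩
  · rcases Finset.eq_empty_or_nonempty (S.erase s1) with h | ⟨s2, h2⟩
    · refine ⟨s1, s1, fun s hs => Or.inl ?_, Or.inl h1, Or.inl h1⟩
      by_contra hne
      have : s ∈ S.erase s1 := Finset.mem_erase.2 ⟨hne, hs⟩
      rw [h] at this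
      simp at this
    · refine ⟨s1, s2, fun s hs => ?_, Or.inl h1, Or.inl (Finset.mem_of_mem_erase h2)⟩
      by_contra hne
      push Not at hne
      have h3 : s ∈ (S.erase s1).erase s2 :=
        Finset.mem_erase.2 ⟨hne.2, Finset.mem_erase.2 ⟨hne.1, hs⟩⟩
      have c1 := Finset.card_erase_of_mem h1
      have c2 := Finset.card_erase_of_mem h2
      have c3 := Finset.card_pos.2 ⟨s, h3⟩
      omega

lemma third : ∀ a b : Fin 10, ∃ x, x ≠ a ∧ x ≠ b := by decide +kernel

theorem pet_three : ThreeConnected Pet := by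
  refine tc_of_closed (by simp) ?_
  intro S hS P hP a b ha hb hPa
  obtain ⟨x, hxa, hxb⟩ := third a b
  obtain ⟨s1, s2, h1, h2, h3⟩ := two_of_card' hS x
  have ha1 : a ≠ s1 := fun h => h2.elim (fun h' => ha (h ▸ h')) (fun h' => hxa (h'.symm.trans h.symm))
  have ha2 : a ≠ s2 := fun h => h3.elim (fun h' => ha (h ▸ h')) (fun h' => hxa (h'.symm.trans h.symm))
  have hb1 : b ≠ s1 := fun h => h2.elim (fun h' => hb (h ▸ h')) (fun h' => hxb (h'.symm.trans h.symm))
  have hb2 : b ≠ s2 := fun h => h3.elim (fun h' => hb (h ▸ h')) (fun h' => hxb (h'.symm.trans h.symm))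
  have e1 := to_root h1 hP _ a le_rfl ha1 ha2
  have e2 := to_root h1 hP _ b le_rfl hb1 hb2
  exact e2.2 (e1.1 hPa)

theorem pet_cubic : Cubic Pet := by
  intro v
  rw [← dg_eq]
  unfold dg Pet
  simp only [ind_gr]
  revert v
  decide +kernel

lemma gr_le {l : List (Sym2 (Fin 10))} (h : ∀ e ∈ l, e ∈ pe) : gr l ≤ Pet :=
  fun _ _ h' => ⟨h'.1, h _ h'.2⟩

lemma gr_ev {l : List (Sym2 (Fin 10))} (h : ∀ v, (∑ w, gi l v w) % 2 = 0) : Ev (gr l) := by
  intro v
  unfold dg
  simp only [ind_gr]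
  rw [Nat.even_iff]
  exact h v

/-- a 9-cycle missing the vertex 9 -/
def d0 : List (Sym2 (Fin 10)) :=
  [s(1, 2), s(3, 4), s(0, 4), s(0, 5), s(1, 6), s(2, 7), s(3, 8), s(5, 7), s(6, 8)]

/-- the other members of the double cover -/
def d1 : List (Sym2 (Fin 10)) := [s(0, 1), s(1, 2), s(2, 3), s(0, 5), s(3, 8), s(5, 8)]
/-- the other members of the double cover -/
def d2 : List (Sym2 (Fin 10)) := [s(0, 1), s(0, 4), s(1, 6), s(4, 9), s(6, 9)]
/-- the other members of the double cover -/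
def d3 : List (Sym2 (Fin 10)) := [s(2, 3), s(3, 4), s(2, 7), s(4, 9), s(7, 9)]
/-- the other members of the double cover -/
def d4 : List (Sym2 (Fin 10)) := [s(5, 7), s(6, 8), s(7, 9), s(5, 8), s(6, 9)]

theorem pet_through : CdcThrough Pet (fun v => v ≠ 9) := by
  refine ⟨gr d0, [gr d1, gr d2, gr d3, gr d4], gr_le (by decide +kernel),
    gr_ev (by decide +kernel), ?_, ?_, ?_⟩
  · intro K hK
    simp only [List.mem_cons, List.not_mem_nil, or_false] at hK
    rcases hK with rfl | rfl | rfl | rfl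
    · exact ⟨gr_le (by decide +kernel), gr_ev (by decide +kernel)⟩
    · exact ⟨gr_le (by decide +kernel), gr_ev (by decide +kernel)⟩
    · exact ⟨gr_le (by decide +kernel), gr_ev (by decide +kernel)⟩
    · exact ⟨gr_le (by decide +kernel), gr_ev (by decide +kernel)⟩
  · have h : ∀ u v : Fin 10, (u ≠ v ∧ s(u, v) ∈ pe) →
        gi d0 u v + (gi d1 u v + (gi d2 u v + (gi d3 u v + gi d4 u v))) = 2 := by
      decide +kernel
    intro u v huv
    have := h u v huv
    simp only [mul_cons, mul_nil, ind_gr]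
    omega
  · have h : ∀ v : Fin 10, v ≠ 9 → ∃ u, v ≠ u ∧ s(v, u) ∈ d0 := by decide +kernel
    intro v hv
    exact h v hv

/-! ### the bad weight -/

/-- the spokes -/
def sp : List (Sym2 (Fin 10)) := [s(0, 5), s(1, 6), s(2, 7), s(3, 8), s(4, 9)]

/-- weight 2 on the spokes, 1 elsewhere -/
def wp (e : Sym2 (Fin 10)) : ℕ := if e ∈ sp then 2 else 1

lemma wp_eul : IsEulerianWeight Pet wp := by
  rw [eulerian_iff]
  constructor
  · intro u v _
    unfold wp
    split_ifs
    · exact Or.inr rfl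
    · exact Or.inl rfl
  · have h : ∀ v : Fin 10, (∑ u, gi pe v u * wp s(v, u)) % 2 = 0 := by decide +kernel
    intro v
    have h2 : (∑ u, if Pet.Adj v u then wp s(v, u) else 0) = ∑ u, gi pe v u * wp s(v, u) := by
      refine Finset.sum_congr rfl fun u _ => ?_
      rw [← ind_gr]
      unfold ind Pet
      split_ifs <;> simp
    rw [Nat.even_iff, h2]
    exact h v

lemma one_idx {V : Type} [Fintype V] (L : List (SimpleGraph V)) (u v : V) (h : mul L u v = 1) :
    ∃ j0 : Fin L.length, ∀ j : Fin L.length, ind L[j.1] u v = if j = j0 then 1 else 0 := by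
  have hs : ∑ j : Fin L.length, ind L[j.1] u v = 1 := by
    rw [← h]
    unfold mul
    exact Fin.sum_univ_fun_getElem L (fun K => ind K u v)
  obtain ⟨j0, _, hj0⟩ : ∃ j0 ∈ (univ : Finset (Fin L.length)), ind L[j0.1] u v ≠ 0 := by
    by_contra hn
    push Not at hn
    rw [Finset.sum_eq_zero hn] at hs
    omega
  refine ⟨j0, fun j => ?_⟩
  have hle := ind_le L[j0.1] u v
  by_cases hj : j = j0
  · rw [if_pos hj, hj]; omega
  · rw [if_neg hj]
    have : ind L[j0.1] u v + ind L[j.1] u v ≤ ∑ j : Fin L.length, ind L[j.1] u v := by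
      rw [← Finset.sum_pair (f := fun j : Fin L.length => ind L[j.1] u v) (Ne.symm hj)]
      exact Finset.sum_le_sum_of_subset (Finset.subset_univ _)
    omega

/-- at a vertex with weights `1, 1, 2` -/
lemma at_vertex {L : List (SimpleGraph (Fin 10))} (hL : EvL Pet L) {v a b c : Fin 10}
    (h1 : a ≠ b) (h2 : a ≠ c) (h3 : b ≠ c) (hN : ∀ w, Pet.Adj v w ↔ w = a ∨ w = b ∨ w = c)
    {xa xb : Fin L.length} (ha : ∀ j : Fin L.length, ind L[j.1] v a = if j = xa then 1 else 0)
    (hb : ∀ j : Fin L.length, ind L[j.1] v b = if j = xb then 1 else 0)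
    (hc : mul L v c = 2) : xa ≠ xb ∧ ∀ j : Fin L.length,
      Even ((if j = xa then 1 else 0) + (if j = xb then 1 else 0) + ind L[j.1] v c) := by
  have hpar : ∀ j : Fin L.length,
      Even ((if j = xa then 1 else 0) + (if j = xb then 1 else 0) + ind L[j.1] v c) := by
    intro j
    have hK := hL _ (List.getElem_mem j.2)
    have := hK.2 v
    rwa [dg3 hK.1 h1 h2 h3 hN, ha, hb] at this
  refine ⟨?_, hpar⟩
  rintro rfl
  have h0 : ∀ j : Fin L.length, ind L[j.1] v c = 0 := by
    intro j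
    have := hpar j
    have hle := ind_le L[j.1] v c
    rw [Nat.even_iff] at this
    split_ifs at this <;> omega
  have : mul L v c = 0 := by
    unfold mul
    rw [← Fin.sum_univ_fun_getElem L (fun K => ind K v c)]
    exact Finset.sum_eq_zero fun j _ => h0 j
  omega

lemma pair_eq {n : ℕ} {a b c d : Fin n} (s : Fin n → ℕ)
    (h1 : a ≠ b)
    (e1 : ∀ j : Fin n, Even ((if j = a then 1 else 0) + (if j = b then 1 else 0) + s j))
    (e2 : ∀ j : Fin n, Even ((if j = c then 1 else 0) + (if j = d then 1 else 0) + s j)) :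
    (a = c ∧ b = d) ∨ (a = d ∧ b = c) := by
  have k1 := e1 a
  have k2 := e2 a
  have k3 := e1 b
  have k4 := e2 b
  rw [Nat.even_iff] at k1 k2 k3 k4
  simp only [if_true, if_neg h1, if_neg h1.symm] at k1 k3
  by_cases hac : a = c
  · left
    refine ⟨hac, ?_⟩
    by_contra hbd
    rw [if_neg hbd, if_neg (fun h : b = c => h1 (hac.trans h.symm))] at k4
    omega
  · right
    have had : a = d := by
      by_contra had
      rw [if_neg hac, if_neg had] at k2
      omega
    refine ⟨had, ?_⟩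
    by_contra hbc
    rw [if_neg hbc, if_neg (fun h : b = d => h1 (had.trans h.symm))] at k4
    omega

lemma pet_comb {x0 x1 x2 x3 x4 y0 y1 y2 y3 y4 : ℕ} (n0 : x4 ≠ x0) (n1 : x0 ≠ x1) (n2 : x1 ≠ x2)
    (n3 : x2 ≠ x3) (n4 : x3 ≠ x4)
    (h0 : (x4 = y3 ∧ x0 = y0) ∨ (x4 = y0 ∧ x0 = y3))
    (h1 : (x0 = y4 ∧ x1 = y1) ∨ (x0 = y1 ∧ x1 = y4))
    (h2 : (x1 = y0 ∧ x2 = y2) ∨ (x1 = y2 ∧ x2 = y0))
    (h3 : (x2 = y1 ∧ x3 = y3) ∨ (x2 = y3 ∧ x3 = y1))
    (h4 : (x3 = y2 ∧ x4 = y4) ∨ (x3 = y4 ∧ x4 = y2)) : False := by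
  rcases h0 with ⟨a0, b0⟩ | ⟨a0, b0⟩ <;> rcases h1 with ⟨a1, b1⟩ | ⟨a1, b1⟩ <;>
    rcases h2 with ⟨a2, b2⟩ | ⟨a2, b2⟩ <;> rcases h3 with ⟨a3, b3⟩ | ⟨a3, b3⟩ <;>
    rcases h4 with ⟨a4, b4⟩ | ⟨a4, b4⟩ <;> omega

lemma pet_nbr : ∀ v w : Fin 10, (v ≠ w ∧ s(v, w) ∈ pe) ↔ w ∈ nbp v := by decide +kernel

theorem pet_not_ccp : ¬ CycleCoverProperty Pet := by
  intro hprop
  obtain ⟨L, l1, l2⟩ := (evCover_iff Pet wp).1 (hprop wp wp_eul)
  have hw : ∀ u v : Fin 10, (u ≠ v ∧ s(u, v) ∈ pe) → mul L u v = wp s(u, v) := fun u v h => l2 u v h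
  have hN : ∀ v w : Fin 10, Pet.Adj v w ↔ w ∈ nbp v := pet_nbr
  have o : ∀ u v : Fin 10, (u ≠ v ∧ s(u, v) ∈ pe ∧ s(u, v) ∉ sp) → ∃ j0 : Fin L.length,
      ∀ j : Fin L.length, ind L[j.1] u v = if j = j0 then 1 else 0 := by
    intro u v h
    refine one_idx L u v ?_
    rw [hw u v ⟨h.1, h.2.1⟩]
    unfold wp
    rw [if_neg h.2.2]
  have t : ∀ u v : Fin 10, (u ≠ v ∧ s(u, v) ∈ pe ∧ s(u, v) ∈ sp) → mul L u v = 2 := by
    intro u v h
    rw [hw u v ⟨h.1, h.2.1⟩]
    unfold wp
    rw [if_pos h.2.2]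
  obtain ⟨x0, hx0⟩ := o 0 1 (by decide +kernel)
  obtain ⟨x1, hx1⟩ := o 1 2 (by decide +kernel)
  obtain ⟨x2, hx2⟩ := o 2 3 (by decide +kernel)
  obtain ⟨x3, hx3⟩ := o 3 4 (by decide +kernel)
  obtain ⟨x4, hx4⟩ := o 4 0 (by decide +kernel)
  obtain ⟨y0, hy0⟩ := o 5 7 (by decide +kernel)
  obtain ⟨y1, hy1⟩ := o 6 8 (by decide +kernel)
  obtain ⟨y2, hy2⟩ := o 7 9 (by decide +kernel)
  obtain ⟨y3, hy3⟩ := o 8 5 (by decide +kernel)
  obtain ⟨y4, hy4⟩ := o 9 6 (by decide +kernel)
  have sw : ∀ {a b : Fin 10} {z : Fin L.length},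
      (∀ j : Fin L.length, ind L[j.1] a b = if j = z then 1 else 0) →
      ∀ j : Fin L.length, ind L[j.1] b a = if j = z then 1 else 0 :=
    fun h j => by rw [ind_symm]; exact h j
  -- outer vertices: spokes `i, i + 5`; previous edge first
  have A0 := at_vertex l1 (v := 0) (a := 4) (b := 1) (c := 5) (by decide) (by decide) (by decide)
    (fun w => by rw [hN]; revert w; decide +kernel) (sw hx4) hx0 (t 0 5 (by decide +kernel))
  have A1 := at_vertex l1 (v := 1) (a := 0) (b := 2) (c := 6) (by decide) (by decide) (by decide)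
    (fun w => by rw [hN]; revert w; decide +kernel) (sw hx0) hx1 (t 1 6 (by decide +kernel))
  have A2 := at_vertex l1 (v := 2) (a := 1) (b := 3) (c := 7) (by decide) (by decide) (by decide)
    (fun w => by rw [hN]; revert w; decide +kernel) (sw hx1) hx2 (t 2 7 (by decide +kernel))
  have A3 := at_vertex l1 (v := 3) (a := 2) (b := 4) (c := 8) (by decide) (by decide) (by decide)
    (fun w => by rw [hN]; revert w; decide +kernel) (sw hx2) hx3 (t 3 8 (by decide +kernel))
  have A4 := at_vertex l1 (v := 4) (a := 3) (b := 0) (c := 9) (by decide) (by decide) (by decide)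
    (fun w => by rw [hN]; revert w; decide +kernel) (sw hx3) hx4 (t 4 9 (by decide +kernel))
  -- inner vertices: at `5 + i` the edges `y_{i+3}` (from `3 + i`) and `y_i`
  have B0 := at_vertex l1 (v := 5) (a := 8) (b := 7) (c := 0) (by decide) (by decide) (by decide)
    (fun w => by rw [hN]; revert w; decide +kernel) (sw hy3) hy0 (t 5 0 (by decide +kernel))
  have B1 := at_vertex l1 (v := 6) (a := 9) (b := 8) (c := 1) (by decide) (by decide) (by decide)
    (fun w => by rw [hN]; revert w; decide +kernel) (sw hy4) hy1 (t 6 1 (by decide +kernel))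
  have B2 := at_vertex l1 (v := 7) (a := 5) (b := 9) (c := 2) (by decide) (by decide) (by decide)
    (fun w => by rw [hN]; revert w; decide +kernel) (sw hy0) hy2 (t 7 2 (by decide +kernel))
  have B3 := at_vertex l1 (v := 8) (a := 6) (b := 5) (c := 3) (by decide) (by decide) (by decide)
    (fun w => by rw [hN]; revert w; decide +kernel) (sw hy1) hy3 (t 8 3 (by decide +kernel))
  have B4 := at_vertex l1 (v := 9) (a := 7) (b := 6) (c := 4) (by decide) (by decide) (by decide)
    (fun w => by rw [hN]; revert w; decide +kernel) (sw hy2) hy4 (t 9 4 (by decide +kernel))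
  have q : ∀ {a b c d : Fin L.length} {u v : Fin 10},
      (a ≠ b ∧ ∀ j : Fin L.length,
        Even ((if j = a then 1 else 0) + (if j = b then 1 else 0) + ind L[j.1] u v)) →
      (c ≠ d ∧ ∀ j : Fin L.length,
        Even ((if j = c then 1 else 0) + (if j = d then 1 else 0) + ind L[j.1] v u)) →
      (a.1 = c.1 ∧ b.1 = d.1) ∨ (a.1 = d.1 ∧ b.1 = c.1) := by
    intro a b c d u v h h'
    have := pair_eq (fun j => ind L[j.1] u v) h.1 h.2 (fun j => by
      have := h'.2 j
      rwa [ind_symm] at this)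
    rcases this with ⟨e1, e2⟩ | ⟨e1, e2⟩
    · exact Or.inl ⟨by rw [e1], by rw [e2]⟩
    · exact Or.inr ⟨by rw [e1], by rw [e2]⟩
  exact pet_comb (fun h => A0.1 (Fin.ext h)) (fun h => A1.1 (Fin.ext h))
    (fun h => A2.1 (Fin.ext h)) (fun h => A3.1 (Fin.ext h)) (fun h => A4.1 (Fin.ext h))
    (q A0 B0) (q A1 B1) (q A2 B2) (q A3 B3) (q A4 B4)

end Pool.Agent.KS6_61.TR
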