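import Pool.Agent.KS6_61.TR.Cover

/-! # The cycle cover property, double covers and short covers of expansions -/

set_option autoImplicit false
set_option linter.unusedSectionVars false

open Classical Finset
open Pool.Agent.Results.MP_b9ebd9_co.ThreeConnectedCounterexample
  (ThreeConnected IsPostmanTour CPP IsCycleCover coverLength SCC cutWeight IsEulerianWeight
    IsCycleWCover CycleCoverProperty even_cut even_inner)

namespace Pool.Agent.KS6_61.TR

section
variable {V W : Type} [Fintype V] [Fintype W] {G : SimpleGraph V} {H : SimpleGraph W}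
  {π : W → V} {port : V → V → W}

/-- the weight of the edge attached at `x` -/
noncomputable def Exp.att (E : Exp G H π port) (w : V → V → ℕ) (x : W) : ℕ :=
  w (π x) (E.surj x).choose

lemma Exp.att_eq (E : Exp G H π port) (w : V → V → ℕ) {v u : V} (h : G.Adj v u)
    (hinj : ∀ u u', G.Adj v u → G.Adj v u' → port v u = port v u' → u = u') :
    E.att w (port v u) = w v u := by
  unfold Exp.att
  obtain ⟨h1, h2⟩ := (E.surj (port v u)).choose_spec
  generalize (E.surj (port v u)).choose = u' at h1 h2 ⊢
  rw [E.fib v u h] at h1 h2 ⊢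
  rw [hinj _ _ h1 h h2]

/-- extension of a weight to `H`: the triangle edges get the value `t` of the two attached edges -/
noncomputable def Exp.ext (E : Exp G H π port) (w : V → V → ℕ) (t : ℕ → ℕ → ℕ) (x y : W) : ℕ :=
  if π x = π y then t (E.att w x) (E.att w y) else w (π x) (π y)

lemma Exp.ext_symm (E : Exp G H π port) {w : V → V → ℕ} (hw : ∀ u v, w u v = w v u)
    {t : ℕ → ℕ → ℕ} (ht : ∀ a b, t a b = t b a) (x y : W) : E.ext w t x y = E.ext w t y x := by
  unfold Exp.ext
  by_cases h : π x = π y
  · rw [if_pos h, if_pos h.symm, ht]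
  · rw [if_neg h, if_neg (Ne.symm h), hw]

lemma Exp.ext_across (E : Exp G H π port) (w : V → V → ℕ) (t : ℕ → ℕ → ℕ) {u v : V}
    (h : G.Adj u v) : E.ext w t (port u v) (port v u) = w u v := by
  unfold Exp.ext
  rw [E.fib u v h, E.fib v u h.symm, if_neg h.ne]

lemma Exp.ext_inside (E : Exp G H π port) (w : V → V → ℕ) (t : ℕ → ℕ → ℕ) {v u u' : V}
    (h : G.Adj v u) (h' : G.Adj v u')
    (hinj : ∀ u u', G.Adj v u → G.Adj v u' → port v u = port v u' → u = u') :
    E.ext w t (port v u) (port v u') = t (w v u) (w v u') := by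
  unfold Exp.ext
  rw [E.fib v u h, E.fib v u' h', if_pos rfl, E.att_eq w h hinj, E.att_eq w h' hinj]

/-- vertex sums of the extension -/
lemma Exp.vs_ext (E : Exp G H π port) (hc : Cubic G) (w : V → V → ℕ) (t : ℕ → ℕ → ℕ) (x : W) :
    ∃ v a b c, a ≠ b ∧ a ≠ c ∧ b ≠ c ∧ (∀ w, G.Adj v w ↔ w = a ∨ w = b ∨ w = c) ∧
      (((∀ u u', G.Adj v u → G.Adj v u' → port v u = port v u') ∧
          vs H (E.ext w t) x = w v a + w v b + w v c) ∨
        vs H (E.ext w t) x = w v a + t (w v a) (w v b) + t (w v a) (w v c)) := by
  obtain ⟨u0, hu0, hx0⟩ := E.surj x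
  obtain ⟨b, c, h1, h2, h3, hN⟩ := nbr_first hc hu0
  have hb : G.Adj (π x) b := (hN b).2 (Or.inr (Or.inl rfl))
  have hc' : G.Adj (π x) c := (hN c).2 (Or.inr (Or.inr rfl))
  refine ⟨π x, u0, b, c, h1, h2, h3, hN, ?_⟩
  rcases E.alt (π x) with hcol | hinj
  · left
    refine ⟨hcol, ?_⟩
    rw [E.vs_coll h1 h2 h3 hN hcol rfl, E.ext_across w t hu0, E.ext_across w t hb,
      E.ext_across w t hc']
  · right
    have := E.vs_inj h1 h2 h3 hN hinj (E.ext w t)
    rw [hx0] at this
    rw [this]
    have e1 := E.ext_across w t hu0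
    have e2 := E.ext_inside w t hu0 hb hinj
    have e3 := E.ext_inside w t hu0 hc' hinj
    rw [hx0] at e1 e2 e3
    rw [e1, e2, e3]

lemma vs_eq_sum (w : Sym2 V → ℕ) (v : V) :
    vs G (fun u v => w s(u, v)) v = ∑ u, if G.Adj v u then w s(v, u) else 0 := rfl

/-- the cycle cover property is invariant under expansions -/
theorem Exp.ccp_iff (E : Exp G H π port) (hc : Cubic G) :
    CycleCoverProperty H ↔ CycleCoverProperty G := by
  constructor
  · intro hH w hw
    rw [evCover_iff]
    obtain ⟨w1, w2⟩ := (eulerian_iff G w).1 hw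
    let t : ℕ → ℕ → ℕ := fun a b => if a = b then 2 else 1
    have ht : ∀ a b, t a b = t b a := fun a b => by simp only [t, eq_comm]
    have ht2 : ∀ a b, t a b = 1 ∨ t a b = 2 := fun a b => by
      simp only [t]; split_ifs <;> simp
    let w' : Sym2 W → ℕ := Sym2.lift ⟨E.ext (fun u v => w s(u, v)) t,
      E.ext_symm (fun u v => by rw [Sym2.eq_swap]) ht⟩
    have hw' : ∀ x y, w' s(x, y) = E.ext (fun u v => w s(u, v)) t x y := fun x y => rfl
    have heul : IsEulerianWeight H w' := by
      rw [eulerian_iff]
      constructor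
      · intro x y hxy
        rw [hw']
        unfold Exp.ext
        split_ifs with h
        · exact ht2 _ _
        · rcases (E.adj_iff x y).1 hxy with h' | h'
          · exact absurd h'.1 h
          · exact w1 _ _ h'.1
      · intro x
        have h1 : ∑ y, (if H.Adj x y then w' s(x, y) else 0)
            = vs H (E.ext (fun u v => w s(u, v)) t) x := rfl
        rw [h1]
        obtain ⟨v, a, b, c, h1, h2, h3, hN, h4⟩ := E.vs_ext hc (fun u v => w s(u, v)) t x
        have h5 : Even (vs G (fun u v => w s(u, v)) v) := w2 v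
        rw [vs3 h1 h2 h3 hN] at h5
        rcases h4 with ⟨_, h4⟩ | h4
        · rw [h4]; exact h5
        · rw [h4]
          have ka := w1 v a ((hN a).2 (Or.inl rfl))
          have kb := w1 v b ((hN b).2 (Or.inr (Or.inl rfl)))
          have kc := w1 v c ((hN c).2 (Or.inr (Or.inr rfl)))
          simp only [t]
          rw [Nat.even_iff] at h5 ⊢
          rcases ka with ka | ka <;> rcases kb with kb | kb <;> rcases kc with kc | kc <;>
            simp only [ka, kb, kc] at h5 ⊢ <;> simp at h5 ⊢
    have := (evCover_iff H w').1 (hH w' heul)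
    obtain ⟨L, l1, l2⟩ := E.contract hc this
    refine ⟨L, l1, fun u v huv => ?_⟩
    rw [l2 u v huv]
    exact E.ext_across (fun u v => w s(u, v)) t huv
  · intro hG w hw
    rw [evCover_iff]
    obtain ⟨w1, w2⟩ := (eulerian_iff H w).1 hw
    let w' : Sym2 V → ℕ := Sym2.lift ⟨fun u v => w s(port u v, port v u),
      fun u v => congrArg w Sym2.eq_swap⟩
    have heul : IsEulerianWeight G w' := by
      rw [eulerian_iff]
      constructor
      · intro u v huv
        exact w1 _ _ (E.across huv)
      · intro v
        exact E.par_con hc (fun x y => w s(x, y)) (fun x y => by rw [Sym2.eq_swap]) w2 v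
    have h1 := (evCover_iff G w').1 (hG w' heul)
    exact E.lift_cover hc (w' := fun x y => w s(x, y)) (fun x y => by rw [Sym2.eq_swap]) w1 w2 h1

/-- a cover by even subgraphs is a double cover -/
def Cdc (G : SimpleGraph V) : Prop := EvCover G (fun _ _ => 2)

theorem Exp.cdc_iff (E : Exp G H π port) (hc : Cubic G) : Cdc H ↔ Cdc G := by
  constructor
  · intro h
    exact E.contract hc h
  · intro h
    refine E.lift_cover hc (w' := fun _ _ => 2) (fun _ _ => rfl) (fun _ _ _ => Or.inr rfl)
      (fun x => ?_) h
    unfold vs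
    refine Finset.even_sum _ fun y _ => ?_
    split_ifs <;> simp

/-- a double cover by even subgraphs one of which touches all vertices of a set -/
def CdcThrough (G : SimpleGraph V) (P : V → Prop) : Prop :=
  ∃ (D : SimpleGraph V) (L : List (SimpleGraph V)), D ≤ G ∧ Ev D ∧ EvL G L ∧
    (∀ u v, G.Adj u v → ind D u v + mul L u v = 2) ∧ ∀ v, P v → ∃ u, D.Adj v u

theorem Exp.four_iff (E : Exp G H π port) (hc : Cubic G) : Four H ↔
    CdcThrough G (fun v => ∀ u u', G.Adj v u → G.Adj v u' → port v u = port v u') := by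
  constructor
  · rintro ⟨L, l1, l2, l3⟩
    have hcov : EvCover H (fun x y => mul L x y) := ⟨L, l1, fun _ _ _ => rfl⟩
    obtain ⟨L', l1', l2'⟩ := E.contract hc hcov
    replace l2' : ∀ u v, G.Adj u v → mul L' u v = mul L (port u v) (port v u) := l2'
    have hsum : ∀ x, vs H (fun x y => mul L x y) x = 4 := by
      intro x
      rw [← l3 x]
      unfold vs
      refine Finset.sum_congr rfl fun y _ => ?_
      split_ifs with h
      · rfl
      · exact (mul_zero_of_le L (fun K hK => (l1 K hK).1) h).symm
    have h12 : ∀ u v, G.Adj u v → mul L' u v = 1 ∨ mul L' u v = 2 := by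
      intro u v huv
      obtain ⟨b, c, h1, h2, h3, hN⟩ := nbr_first hc huv
      have hb : G.Adj u b := (hN b).2 (Or.inr (Or.inl rfl))
      have hc' : G.Adj u c := (hN c).2 (Or.inr (Or.inr rfl))
      have k0 := l2 _ _ (E.across huv)
      have k1 := l2 _ _ (E.across hb)
      have k2 := l2 _ _ (E.across hc')
      have h4 := hsum (port u v)
      rw [l2' u v huv]
      rcases E.alt u with hcol | hinj
      · rw [E.vs_coll h1 h2 h3 hN hcol (E.fib u v huv)] at h4
        omega
      · rw [E.vs_inj h1 h2 h3 hN hinj] at h4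
        have k3 := l2 _ _ (E.inside huv hb (fun h => h1 (hinj _ _ huv hb h)))
        have k4 := l2 _ _ (E.inside huv hc' (fun h => h2 (hinj _ _ huv hc' h)))
        omega
    let D : SimpleGraph V :=
      { Adj := fun u v => G.Adj u v ∧ mul L' u v = 1
        symm := ⟨fun u v h => ⟨h.1.symm, by rw [mul_symm]; exact h.2⟩⟩
        loopless := ⟨fun _ h => h.1.ne rfl⟩ }
    have hD : D ≤ G := fun _ _ h => h.1
    have hind : ∀ u v, G.Adj u v → ind D u v + mul L' u v = 2 := by
      intro u v huv
      unfold ind
      rcases h12 u v huv with h | h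
      · rw [if_pos (show D.Adj u v from ⟨huv, h⟩), h]
      · rw [if_neg (fun h' : D.Adj u v => by have := h'.2; omega), h]
    refine ⟨D, L', hD, fun v => ?_, l1', hind, fun v hcol => ?_⟩
    · obtain ⟨a, b, c, h1, h2, h3, hN⟩ := nbr3 hc v
      have ha : G.Adj v a := (hN a).2 (Or.inl rfl)
      have hb : G.Adj v b := (hN b).2 (Or.inr (Or.inl rfl))
      have hc' : G.Adj v c := (hN c).2 (Or.inr (Or.inr rfl))
      rw [dg3 hD h1 h2 h3 hN]
      have e0 := sum_mul_even L' (fun K hK => (l1' K hK).2) v
      rw [sum3 _ h1 h2 h3 (fun w hw => mul_zero_of_le L' (fun K hK => (l1' K hK).1)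
        (fun h => hw ((hN w).1 h)))] at e0
      have e1 := hind v a ha
      have e2 := hind v b hb
      have e3 := hind v c hc'
      rw [Nat.even_iff] at e0 ⊢
      omega
    · obtain ⟨a, b, c, h1, h2, h3, hN⟩ := nbr3 hc v
      have ha : G.Adj v a := (hN a).2 (Or.inl rfl)
      have hb : G.Adj v b := (hN b).2 (Or.inr (Or.inl rfl))
      have hc' : G.Adj v c := (hN c).2 (Or.inr (Or.inr rfl))
      have h4 := hsum (port v a)
      rw [E.vs_coll h1 h2 h3 hN hcol (E.fib v a ha), ← l2' v a ha, ← l2' v b hb,
        ← l2' v c hc'] at h4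
      by_cases ka : mul L' v a = 1
      · exact ⟨a, ha, ka⟩
      · by_cases kb : mul L' v b = 1
        · exact ⟨b, hb, kb⟩
        · by_cases kc : mul L' v c = 1
          · exact ⟨c, hc', kc⟩
          · exfalso
            rcases h12 v a ha with h | h <;> rcases h12 v b hb with h' | h' <;>
              rcases h12 v c hc' with h'' | h'' <;> omega
  · rintro ⟨D, L, hD, hDe, l1, l2, l3⟩
    let t : ℕ → ℕ → ℕ := fun a b => if a = 1 ∧ b = 1 then 2 else 1
    have ht : ∀ a b, t a b = t b a := fun a b => by simp only [t, and_comm]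
    have ht2 : ∀ a b, t a b = 1 ∨ t a b = 2 := fun a b => by
      simp only [t]; split_ifs <;> simp
    have h12 : ∀ u v, G.Adj u v → mul L u v = 1 ∨ mul L u v = 2 := by
      intro u v huv
      have := l2 u v huv
      have := ind_le D u v
      omega
    have hsum : ∀ x, vs H (E.ext (fun u v => mul L u v) t) x = 4 := by
      intro x
      obtain ⟨v, a, b, c, h1, h2, h3, hN, h4⟩ := E.vs_ext hc (fun u v => mul L u v) t x
      have ha : G.Adj v a := (hN a).2 (Or.inl rfl)
      have hb : G.Adj v b := (hN b).2 (Or.inr (Or.inl rfl))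
      have hc' : G.Adj v c := (hN c).2 (Or.inr (Or.inr rfl))
      have h5 := hDe v
      rw [dg3 hD h1 h2 h3 hN, Nat.even_iff] at h5
      have e1 := l2 v a ha
      have e2 := l2 v b hb
      have e3 := l2 v c hc'
      have i1 := ind_le D v a
      have i2 := ind_le D v b
      have i3 := ind_le D v c
      rcases h4 with ⟨hcol, h4⟩ | h4
      · obtain ⟨u, hu⟩ := l3 v hcol
        have hpos : 1 ≤ ind D v a + ind D v b + ind D v c := by
          have : ind D v u = 1 := by unfold ind; rw [if_pos hu]
          rcases (hN u).1 (hD hu) with rfl | rfl | rfl <;> omega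
        rw [h4]
        omega
      · rw [h4]
        simp only [t]
        rcases h12 v a ha with ka | ka <;> rcases h12 v b hb with kb | kb <;>
          rcases h12 v c hc' with kc | kc <;> simp only [ka, kb, kc] at e1 e2 e3 ⊢ <;>
          first
          | omega
          | simp
    have hsym : ∀ u v, (fun u v => mul L u v) u v = (fun u v => mul L u v) v u :=
      fun u v => mul_symm L u v
    obtain ⟨L', l1', l2'⟩ := E.lift_cover hc (w' := E.ext (fun u v => mul L u v) t)
      (E.ext_symm hsym ht) (fun x y hxy => by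
        unfold Exp.ext
        split_ifs with h
        · exact ht2 _ _
        · rcases (E.adj_iff x y).1 hxy with h' | h'
          · exact absurd h'.1 h
          · exact h12 _ _ h'.1)
      (fun x => by rw [hsum]; exact ⟨2, rfl⟩)
      ⟨L, l1, fun u v huv => (E.ext_across (fun u v => mul L u v) t huv).symm⟩
    refine ⟨L', l1', fun x y hxy => ?_, fun x => ?_⟩
    · rw [l2' x y hxy]
      unfold Exp.ext
      split_ifs with h
      · exact (ht2 _ _).elim (fun h => h.ge) (fun h => by rw [h]; norm_num)
      · rcases (E.adj_iff x y).1 hxy with h' | h'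
        · exact absurd h'.1 h
        · exact (h12 _ _ h'.1).elim (fun h => h.ge) (fun h => by
            show 1 ≤ mul L _ _
            rw [h]; norm_num)
    · rw [← hsum x]
      unfold vs
      refine Finset.sum_congr rfl fun y _ => ?_
      split_ifs with h
      · exact l2' x y h
      · exact mul_zero_of_le L' (fun K hK => (l1' K hK).1) h

end

end Pool.Agent.KS6_61.TR
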