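import Pool.Agent.KS6_61.TR.Match
import Pool.Agent.KS6_61.TR.Merge

/-! # Postman tours and shortest cycle covers of 3-connected cubic graphs -/

set_option autoImplicit false
set_option linter.unusedSectionVars false

open Classical Finset
open Pool.Agent.Results.MP_b9ebd9_co.ThreeConnectedCounterexample
  (ThreeConnected IsPostmanTour CPP IsCycleCover coverLength SCC cutWeight IsEulerianWeight
    IsCycleWCover CycleCoverProperty even_cut even_inner)

namespace Pool.Agent.KS6_61.TR

section
variable {V : Type} [Fintype V]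

lemma sum_edge {u v : V} (h : u ≠ v) (x : V) :
    ∑ y, (if s(u, v) = s(x, y) then 1 else 0) = (if x = u then 1 else 0) + (if x = v then 1 else 0) := by
  by_cases h1 : x = u
  · subst h1
    rw [if_pos rfl, if_neg h]
    rw [Finset.sum_eq_single v]
    · simp
    · intro b _ hb
      rw [if_neg]
      intro h2
      exact hb (Sym2.congr_right.1 h2).symm
    · simp
  · by_cases h2 : x = v
    · subst h2
      rw [if_neg h1, if_pos rfl]
      rw [Finset.sum_eq_single u]
      · simp [Sym2.eq_swap]
      · intro b _ hb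
        rw [if_neg]
        intro h2
        rw [Sym2.eq_swap] at h2
        exact hb (Sym2.congr_right.1 h2).symm
      · simp
    · rw [if_neg h1, if_neg h2]
      refine Finset.sum_eq_zero fun y _ => ?_
      rw [if_neg]
      intro h3
      rw [Sym2.eq_iff] at h3
      rcases h3 with ⟨h3, _⟩ | ⟨_, h3⟩
      · exact h1 h3.symm
      · exact h2 h3.symm

lemma walk_par {G : SimpleGraph V} {a b : V} (p : G.Walk a b) (x : V) :
    Even ((∑ y, p.edges.count s(x, y)) + (if x = a then 1 else 0) + (if x = b then 1 else 0)) := by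
  induction p with
  | nil =>
    simp only [SimpleGraph.Walk.edges_nil, List.count_nil, Finset.sum_const_zero, zero_add]
    split_ifs <;> simp
  | @cons u v w h p ih =>
    simp only [SimpleGraph.Walk.edges_cons, List.count_cons, beq_iff_eq, Finset.sum_add_distrib]
    rw [sum_edge h.ne x]
    obtain ⟨k, hk⟩ := ih
    refine ⟨k + (if x = u then 1 else 0), ?_⟩
    split_ifs at hk ⊢ <;> omega

lemma walk_len {G : SimpleGraph V} {a b : V} (p : G.Walk a b) :
    ∑ x, ∑ y, p.edges.count s(x, y) = 2 * p.length := by
  induction p with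
  | nil => simp
  | @cons u v w h p ih =>
    simp only [SimpleGraph.Walk.edges_cons, List.count_cons, beq_iff_eq, Finset.sum_add_distrib,
      SimpleGraph.Walk.length_cons]
    rw [ih, Finset.sum_congr rfl (fun x _ => sum_edge h.ne x), Finset.sum_add_distrib]
    simp
    omega

/-- three positive summands with even sum have sum at least four -/
lemma vertex_ge {G : SimpleGraph V} (hc : Cubic G) (f : V → V → ℕ) (v : V)
    (h1 : ∀ w, G.Adj v w → 1 ≤ f v w) (h2 : Even (∑ w, f v w)) : 4 ≤ ∑ w, f v w := by
  have : ∑ w, ind G v w ≤ ∑ w, f v w := by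
    refine Finset.sum_le_sum fun w _ => ?_
    unfold ind
    split_ifs with h
    · exact h1 w h
    · exact Nat.zero_le _
  have h3 := dg_cubic hc v
  unfold dg at h3
  obtain ⟨k, hk⟩ := h2
  omega

lemma tour_ge {G : SimpleGraph V} (hc : Cubic G) {u : V} (p : G.Walk u u)
    (hp : ∀ e ∈ G.edgeSet, e ∈ p.edges) : 2 * Fintype.card V ≤ p.length := by
  have h1 : ∀ x, 4 ≤ ∑ y, p.edges.count s(x, y) := by
    intro x
    refine vertex_ge hc (fun x y => p.edges.count s(x, y)) x (fun w hw => ?_) ?_
    · exact List.count_pos_iff.2 (hp _ hw)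
    · have := walk_par p x
      rw [add_assoc, Nat.even_add] at this
      exact this.2 (by split_ifs <;> simp)
  have h2 : ∑ _x : V, 4 ≤ ∑ x, ∑ y, p.edges.count s(x, y) := Finset.sum_le_sum fun x _ => h1 x
  rw [walk_len, Finset.sum_const, Finset.card_univ, smul_eq_mul] at h2
  omega

/-- the digon on the edge from `v` to `w` -/
def digon {G : SimpleGraph V} {v w : V} (h : G.Adj v w) : G.Walk v v :=
  SimpleGraph.Walk.cons h (SimpleGraph.Walk.cons h.symm SimpleGraph.Walk.nil)

lemma tour_exists {G : SimpleGraph V} (hc : Cubic G) (h3 : ThreeConnected G) :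
    ∃ (u : V) (p : G.Walk u u), (∀ e ∈ G.edgeSet, e ∈ p.edges) ∧
      p.length ≤ 2 * Fintype.card V := by
  obtain ⟨m, m1, m2⟩ := matching hc h3
  let K : SimpleGraph V :=
    { Adj := fun u v => G.Adj u v ∧ m u ≠ v
      symm := ⟨fun u v h => ⟨h.1.symm, fun h' => h.2 (by rw [← h', m2])⟩⟩
      loopless := ⟨fun u h => h.1.ne rfl⟩ }
  have hK : K ≤ G := fun u v h => h.1
  have hd : ∀ v, dg K v = 2 := by
    intro v
    have h1 : ∀ w, ind G v w = ind K v w + (if w = m v then 1 else 0) := by
      intro w
      unfold ind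
      by_cases h : w = m v
      · subst h
        rw [if_pos (m1 v), if_neg (fun h : K.Adj v (m v) => h.2 rfl), if_pos rfl]
      · rw [if_neg h]
        by_cases h' : G.Adj v w
        · rw [if_pos h', if_pos (show K.Adj v w from ⟨h', fun h'' => h h''.symm⟩)]
        · rw [if_neg h', if_neg (fun h'' : K.Adj v w => h' h''.1)]
    have h2 := dg_cubic hc v
    unfold dg at h2 ⊢
    rw [Finset.sum_congr rfl (fun w _ => h1 w), Finset.sum_add_distrib] at h2
    simp at h2
    omega
  obtain ⟨F, f1, f2⟩ := toCyc1 K hK (fun v => by rw [hd]; exact even_two)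
  have flen : coverLength F = Fintype.card V := by
    have := len_eq F f1
    simp only [f2] at this
    have h4 : ∑ a, ∑ b, ind K a b = ∑ _a : V, 2 := Finset.sum_congr rfl fun v _ => hd v
    rw [h4, Finset.sum_const, Finset.card_univ, smul_eq_mul] at this
    omega
  -- half of the vertices
  let e := Fintype.equivFin V
  let A : Finset V := univ.filter (fun v => e v < e (m v))
  have hA : 2 * A.card = Fintype.card V := by
    have h5 : A.card = Aᶜ.card := by
      refine Finset.card_bij' (fun v _ => m v) (fun v _ => m v) ?_ ?_ ?_ ?_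
      · intro v hv
        simp only [A, Finset.mem_filter, Finset.mem_univ, true_and, Finset.mem_compl, m2] at hv ⊢
        exact not_lt.2 hv.le
      · intro v hv
        simp only [A, Finset.mem_filter, Finset.mem_univ, true_and, Finset.mem_compl, m2] at hv ⊢
        refine lt_of_le_of_ne (not_lt.1 hv) (fun h => ?_)
        exact (m1 v).ne (e.injective h).symm
      · intro v _; exact m2 v
      · intro v _; exact m2 v
    have := Finset.card_compl_add_card A
    omega
  let D : List (Σ u : V, G.Walk u u) := A.toList.map (fun v => ⟨v, digon (m1 v)⟩)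
  have hD : (D.map (fun C => C.2.length)).sum = 2 * A.card := by
    simp only [D, List.map_map]
    have : ((fun C : Σ u : V, G.Walk u u => C.2.length) ∘
        fun v => (⟨v, digon (m1 v)⟩ : Σ u : V, G.Walk u u)) = fun _ => 2 := by
      funext v
      simp [digon]
    rw [this, List.map_const', List.sum_replicate, Finset.length_toList, smul_eq_mul, mul_comm]
  obtain ⟨u, p, p1, p2⟩ := merge G (tc_conn h3) (F ++ D) (by
    intro ed hed
    induction ed using Sym2.ind with
    | _ a b =>
      rw [SimpleGraph.mem_edgeSet] at hed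
      by_cases h : m a = b
      · subst h
        by_cases ha : a ∈ A
        · refine ⟨⟨a, digon (m1 a)⟩, ?_, ?_⟩
          · refine List.mem_append.2 (Or.inr (List.mem_map.2 ⟨a, by simpa using ha, rfl⟩))
          · simp [digon]
        · refine ⟨⟨m a, digon (m1 (m a))⟩, ?_, ?_⟩
          · refine List.mem_append.2 (Or.inr (List.mem_map.2 ⟨m a, ?_, rfl⟩))
            simp only [A, Finset.mem_toList, Finset.mem_filter, Finset.mem_univ, true_and, m2]
              at ha ⊢
            refine lt_of_le_of_ne (not_lt.1 ha) (fun h => ?_)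
            exact (m1 a).ne (e.injective h).symm
          · simp only [digon, SimpleGraph.Walk.edges_cons, SimpleGraph.Walk.edges_nil, m2]
            simp
      · have hK' : K.Adj a b := ⟨hed, h⟩
        have := f2 a b
        unfold ind at this
        rw [if_pos hK'] at this
        obtain ⟨C, hC, h'⟩ := List.countP_pos_iff.1 (by rw [this]; exact Nat.one_pos)
        exact ⟨C, List.mem_append.2 (Or.inl hC), by simpa using h'⟩)
  refine ⟨u, p, p1, p2.trans ?_⟩
  rw [List.map_append, List.sum_append, hD, hA]
  unfold coverLength at flen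
  omega

theorem cpp_eq {G : SimpleGraph V} (hc : Cubic G) (h3 : ThreeConnected G) :
    CPP G = 2 * Fintype.card V := by
  obtain ⟨u, p, p1, p2⟩ := tour_exists hc h3
  have p3 := tour_ge hc p p1
  unfold CPP
  apply le_antisymm
  · exact Nat.sInf_le ⟨u, p, p1, by omega⟩
  · refine le_csInf ⟨_, u, p, p1, rfl⟩ ?_
    rintro n ⟨u, p, hp, rfl⟩
    exact tour_ge hc p hp

/-- a list of even subgraphs covering everything with all vertex sums equal to four -/
def Four (G : SimpleGraph V) : Prop :=
  ∃ L : List (SimpleGraph V), EvL G L ∧ (∀ a b, G.Adj a b → 1 ≤ mul L a b) ∧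
    ∀ a, ∑ b, mul L a b = 4

lemma mul_le_sum (L : List (SimpleGraph V)) (a b : V) : mul L a b ≤ ∑ c, mul L a c :=
  Finset.single_le_sum (f := fun c => mul L a c) (fun _ _ => Nat.zero_le _) (Finset.mem_univ b)

theorem scc_iff {G : SimpleGraph V} (hc : Cubic G) (h3 : ThreeConnected G) :
    SCC G = CPP G ↔ Four G := by
  rw [cpp_eq hc h3]
  have hn : 0 < Fintype.card V := by have := h3.1; omega
  -- lower bound
  have key : ∀ F : List (Σ u : V, G.Walk u u), IsCycleCover G F → ∃ L, EvL G L ∧
      (∀ a b, G.Adj a b → 1 ≤ mul L a b) ∧ ∑ a, ∑ b, mul L a b = 2 * coverLength F := by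
    rintro F ⟨f1, f2⟩
    obtain ⟨L, l1, l2⟩ := toEv F f1
    refine ⟨L, l1, fun a b h => ?_, ?_⟩
    · rw [l2]
      obtain ⟨C, hC, h'⟩ := f2 s(a, b) h
      exact List.countP_pos_iff.2 ⟨C, hC, by simpa using h'⟩
    · simp only [l2]
      exact len_eq F f1
  have key2 : ∀ L, EvL G L → (∀ a b, G.Adj a b → 1 ≤ mul L a b) → ∀ a, 4 ≤ ∑ b, mul L a b := by
    intro L l1 l2 a
    exact vertex_ge hc (fun x y => mul L x y) a (fun w hw => l2 a w hw)
      (sum_mul_even L (fun K hK => (l1 K hK).2) a)
  constructor
  · intro h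
    have hne : {n : ℕ | ∃ F : List (Σ u : V, G.Walk u u), IsCycleCover G F ∧
        coverLength F = n}.Nonempty := by
      by_contra hn'
      rw [Set.not_nonempty_iff_eq_empty] at hn'
      unfold SCC at h
      rw [hn', Nat.sInf_empty] at h
      omega
    obtain ⟨F, hF, hF2⟩ := Nat.sInf_mem hne
    obtain ⟨L, l1, l2, l3⟩ := key F hF
    refine ⟨L, l1, l2, ?_⟩
    have h4 := key2 L l1 l2
    have h5 : ∑ a, ∑ b, mul L a b = ∑ _a : V, 4 := by
      rw [l3, hF2, Finset.sum_const, Finset.card_univ, smul_eq_mul]
      unfold SCC at h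
      omega
    intro a
    by_contra hne4
    have h6 : ∑ _a : V, 4 < ∑ a, ∑ b, mul L a b :=
      Finset.sum_lt_sum (fun i _ => h4 i) ⟨a, Finset.mem_univ _, lt_of_le_of_ne (h4 a)
        (fun h => hne4 h.symm)⟩
    omega
  · rintro ⟨L, l1, l2, l3⟩
    obtain ⟨F, f1, f2⟩ := toCyc L l1
    have hlen : coverLength F = 2 * Fintype.card V := by
      have := len_eq F f1
      simp only [f2, l3, Finset.sum_const, Finset.card_univ, smul_eq_mul] at this
      omega
    have hcov : IsCycleCover G F := by
      refine ⟨f1, fun e he => ?_⟩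
      induction e using Sym2.ind with
      | _ a b =>
        have h5 := l2 a b he
        rw [← f2] at h5
        obtain ⟨C, hC, h'⟩ := List.countP_pos_iff.1 h5
        exact ⟨C, hC, by simpa using h'⟩
    unfold SCC
    apply le_antisymm
    · exact Nat.sInf_le ⟨F, hcov, hlen⟩
    · refine le_csInf ⟨_, F, hcov, rfl⟩ ?_
      rintro n ⟨F', hF', rfl⟩
      obtain ⟨L', l1', l2', l3'⟩ := key F' hF'
      have h4 := key2 L' l1' l2'
      have h5 : ∑ _a : V, 4 ≤ ∑ a, ∑ b, mul L' a b := Finset.sum_le_sum fun a _ => h4 a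
      rw [l3', Finset.sum_const, Finset.card_univ, smul_eq_mul] at h5
      omega

end

end Pool.Agent.KS6_61.TR
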